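import Mathlib

namespace Pool.Agent.MP_6dccca_an

/-- `(u_j)` and `(v_j)` are `C`-equivalent. -/
def CEquivalent {X Y : Type} [NormedAddCommGroup X] [NormedSpace ℝ X] [NormedAddCommGroup Y]
    [NormedSpace ℝ Y] {n : ℕ} (C : ℝ) (u : Fin n → X) (v : Fin n → Y) : Prop :=
  ∃ A B : ℝ, 0 < A ∧ 0 < B ∧ A * B ≤ C ∧ ∀ a : Fin n → ℝ,
    A⁻¹ * ‖∑ j, a j • v j‖ ≤ ‖∑ j, a j • u j‖ ∧ ‖∑ j, a j • u j‖ ≤ B * ‖∑ j, a j • v j‖

/-- For every closed finite-codimensional `X₁` there is a unit vector `x₁ ∈ X₁` such that for every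
closed finite-codimensional `X₂` there is a unit vector `x₂ ∈ X₂` such that ... `(x₁, …, x_N)`
satisfies `P`. -/
def VectorPlayerWins (X : Type) [NormedAddCommGroup X] [NormedSpace ℝ X] :
    (N : ℕ) → ((Fin N → X) → Prop) → Prop
  | 0, P => P Fin.elim0
  | N + 1, P => ∀ Z : Submodule ℝ X, IsClosed (Z : Set X) → FiniteDimensional ℝ (X ⧸ Z) →
      ∃ x ∈ Z, ‖x‖ = 1 ∧ VectorPlayerWins X N (fun v => P (Fin.cons x v))

/-- The `N`-dimensional space `E` with the basis `e` belongs to `{X}_N`. -/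
def InAsymptoticStructure (X : Type) [NormedAddCommGroup X] [NormedSpace ℝ X] {N : ℕ}
    {E : Type} [NormedAddCommGroup E] [NormedSpace ℝ E] (e : Module.Basis (Fin N) ℝ E) : Prop :=
  (∀ j, ‖e j‖ = 1) ∧
    ∀ ε : ℝ, 0 < ε → VectorPlayerWins X N (fun x => CEquivalent (1 + ε) x e)

/-- `X` is asymptotic-subsequential-`c₀`. -/
def IsAsymptoticSubsequentialC0 (X : Type) [NormedAddCommGroup X] [NormedSpace ℝ X] : Prop :=
  ∃ C : ℝ, 1 ≤ C ∧ ∀ n : ℕ, ∃ N : ℕ,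
    ∀ (E : Type) [NormedAddCommGroup E] [NormedSpace ℝ E] (e : Module.Basis (Fin N) ℝ E),
      InAsymptoticStructure X e →
      ∃ i : Fin n ↪o Fin N,
        CEquivalent C (fun l => e (i l)) (fun l => (Pi.single l 1 : Fin n → ℝ))

end Pool.Agent.MP_6dccca_an
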