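import Pool.Agent.MP_6dccca_an.FnSpace
import Pool.Agent.MP_6dccca_an.Q1Defs

/-! Reflexivity and the asymptotic structure of sequence spaces with a ring `c₀` estimate. -/

open scoped ENNReal NNReal
open Set Function Filter

namespace Pool.Agent.MP_6dccca_an

namespace FnNorm

variable {I : Type} (P : FnNorm I) (G : ℕ → Finset I)

/-- Tails vanish. -/
def TailsVanish : Prop :=
  ∀ f : I → ℝ≥0∞, P.ρ f ≠ ∞ → ∀ ε : ℝ≥0∞, 0 < ε → ∃ n, P.ρ (((G n : Set I)ᶜ).indicator f) ≤ ε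

/-- Among many vectors supported in successive rings some have a bounded sum. -/
def RingEstimate (C : ℝ≥0) : Prop :=
  ∀ n : ℕ, ∃ N : ℕ, ∀ s : ℕ → ℕ, Monotone s → n ≤ s 0 → ∀ y : Fin N → I → ℝ≥0∞,
    (∀ i, P.ρ (y i) ≤ 1) → (∀ i a, y i a ≠ 0 → a ∈ G (s (i + 1)) ∧ a ∉ G (s i)) →
    ∃ σ : Fin n ↪o Fin N, P.ρ (fun a => ∑ l, y (σ l) a) ≤ C

variable {P G}

lemma enorm_indicator_eq (A : Set I) (x : I → ℝ) :
    (fun i => ‖A.indicator x i‖ₑ) = A.indicator (fun i => ‖x i‖ₑ) := by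
  ext i
  by_cases h : i ∈ A <;> simp [h]

lemma TailsVanish.exists_ge (h : P.TailsVanish G) (hG : Monotone G) (x : P.Space) {ε : ℝ}
    (hε : 0 < ε) (n₀ : ℕ) : ∃ n, n₀ ≤ n ∧ ∀ m, n ≤ m → ‖P.proj (G m : Set I)ᶜ x‖ ≤ ε := by
  obtain ⟨n, hn⟩ := h _ x.ne_top (ENNReal.ofReal ε) (by simpa using hε)
  refine ⟨max n₀ n, le_max_left _ _, fun m hm => ?_⟩
  have h1 : ‖P.proj (G n : Set I)ᶜ x‖ ≤ ε := by
    refine norm_le_of_rho_le hε.le ?_
    simp only [fn_proj]
    rwa [enorm_indicator_eq]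
  refine le_trans (norm_proj_mono ?_ x) h1
  exact compl_subset_compl.2 (by exact_mod_cast hG ((le_max_right _ _).trans hm))

lemma RingEstimate.vec {C : ℝ≥0} (h : P.RingEstimate G C) (n : ℕ) :
    ∃ N : ℕ, ∀ s : ℕ → ℕ, Monotone s → n ≤ s 0 → ∀ y : Fin N → P.Space,
    (∀ i, ‖y i‖ ≤ 1) → (∀ i a, (y i).fn a ≠ 0 → a ∈ G (s (i + 1)) ∧ a ∉ G (s i)) →
    ∃ σ : Fin n ↪o Fin N, ∀ c : Fin n → ℝ, ‖∑ l, c l • y (σ l)‖ ≤ C * ‖c‖ := by
  obtain ⟨N, hN⟩ := h n
  refine ⟨N, fun s hs hn y hy hsupp => ?_⟩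
  obtain ⟨σ, hσ⟩ := hN s hs hn (fun i a => ‖(y i).fn a‖ₑ) (fun i => by
    rw [← enorm_def, ← ofReal_norm]
    exact ENNReal.ofReal_le_one.2 (hy i)) (fun i a ha => hsupp i a (by simpa using ha))
  refine ⟨σ, fun c => norm_le_of_rho_le (by positivity) ?_⟩
  refine (P.le_mul ‖c‖ₑ (f := fun a => ∑ l, ‖(y (σ l)).fn a‖ₑ) fun a => ?_).trans ?_
  · rw [fn_sum, Finset.mul_sum]
    refine (enorm_sum_le _ _).trans (Finset.sum_le_sum fun l _ => ?_)
    rw [fn_smul, enorm_mul]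
    gcongr
    rw [← ofReal_norm, ← ofReal_norm]
    exact ENNReal.ofReal_le_ofReal (norm_le_pi_norm c l)
  · rw [mul_comm (C : ℝ), ENNReal.ofReal_mul (norm_nonneg _), ofReal_norm, ENNReal.ofReal_coe_nnreal]
    gcongr

lemma shrinking {C : ℝ≥0} (hG : Monotone G) (hT : P.TailsVanish G) (hR : P.RingEstimate G C)
    (φ : StrongDual ℝ P.Space) {ε : ℝ} (hε : 0 < ε) :
    ∃ n, ‖φ.comp (P.proj (G n : Set I)ᶜ)‖ ≤ ε := by
  by_contra hcon
  push Not at hcon
  have hsel : ∀ n, ∃ (m : ℕ) (w : P.Space), n ≤ m ∧ ‖w‖ ≤ 1 ∧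
      (∀ a, w.fn a ≠ 0 → a ∈ G m ∧ a ∉ G n) ∧ ε / 2 ≤ φ w := by
    intro n
    obtain ⟨x, hx1, hx2⟩ := ContinuousLinearMap.exists_lt_apply_of_lt_opNorm _ (hcon n)
    set z := P.proj (G n : Set I)ᶜ x with hz
    obtain ⟨m, hm, hm2⟩ := hT.exists_ge hG z (ε := ε / (2 * (‖φ‖ + 1))) (by positivity) n
    have h1 := hm2 m le_rfl
    have h2 : |φ (P.proj (G m : Set I)ᶜ z)| ≤ ε / 2 := by
      refine (φ.le_opNorm _).trans ?_
      calc ‖φ‖ * ‖P.proj (G m : Set I)ᶜ z‖ ≤ (‖φ‖ + 1) * (ε / (2 * (‖φ‖ + 1))) := by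
            gcongr
            linarith
        _ = ε / 2 := by field_simp
    have h3 : φ z = φ (P.proj (G m : Set I) z) + φ (P.proj (G m : Set I)ᶜ z) := by
      rw [← map_add, proj_add_compl]
    have h4 : ε < |φ z| := hx2
    have h5 : ε / 2 ≤ |φ (P.proj (G m : Set I) z)| := by
      have := abs_add_le (φ (P.proj (G m : Set I) z)) (φ (P.proj (G m : Set I)ᶜ z))
      rw [← h3] at this
      linarith
    have h6 : ‖P.proj (G m : Set I) z‖ ≤ 1 :=
      (norm_proj_le _ _).trans ((norm_proj_le _ _).trans hx1.le)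
    have h7 : ∀ a, (P.proj (G m : Set I) z).fn a ≠ 0 → a ∈ G m ∧ a ∉ G n := by
      intro a ha
      rw [fn_proj] at ha
      refine ⟨mem_of_indicator_ne_zero ha, ?_⟩
      have : z.fn a ≠ 0 := fun h0 => ha (by simp [indicator, h0])
      rw [hz, fn_proj] at this
      exact mem_of_indicator_ne_zero this
    rcases le_abs.1 h5 with h8 | h8
    · exact ⟨m, _, hm, h6, h7, h8⟩
    · refine ⟨m, -P.proj (G m : Set I) z, hm, by rwa [norm_neg], ?_, by rwa [map_neg]⟩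
      intro a ha
      exact h7 a (by simpa using ha)
  choose M W hM hW1 hW2 hW3 using hsel
  obtain ⟨n, hn⟩ := exists_nat_gt (‖φ‖ * C / (ε / 2))
  obtain ⟨N, hN⟩ := hR.vec n
  let s : ℕ → ℕ := fun i => Nat.rec n (fun _ c => M c) i
  have hs : Monotone s := monotone_nat_of_le_succ fun i => hM (s i)
  obtain ⟨σ, hσ⟩ := hN s hs le_rfl (fun i => W (s i)) (fun i => hW1 _) (fun i a ha => hW2 _ a ha)
  have h1 := hσ 1
  have h2 : ‖(1 : Fin n → ℝ)‖ ≤ 1 := (pi_norm_le_iff_of_nonneg zero_le_one).2 (by simp)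
  have h3 : (n : ℝ) * (ε / 2) ≤ φ (∑ l, (1 : Fin n → ℝ) l • W (s (σ l))) := by
    rw [map_sum]
    calc (n : ℝ) * (ε / 2) = ∑ _l : Fin n, ε / 2 := by simp
      _ ≤ _ := Finset.sum_le_sum fun l _ => by simpa using hW3 _
  have h4 : φ (∑ l, (1 : Fin n → ℝ) l • W (s (σ l))) ≤ ‖φ‖ * C := by
    refine (le_abs_self _).trans ((φ.le_opNorm _).trans ?_)
    gcongr
    exact h1.trans (mul_le_of_le_one_right C.2 h2)
  rw [div_lt_iff₀ (by positivity)] at hn
  linarith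

theorem reflexive {C : ℝ≥0} (hG : Monotone G) (hex : ∀ i, ∃ n, i ∈ G n) (hT : P.TailsVanish G)
    (hR : P.RingEstimate G C) :
    Surjective (NormedSpace.inclusionInDoubleDual ℝ P.Space) := by
  classical
  intro Φ
  let a : I → ℝ := fun i => Φ (P.crd i)
  let x : ℕ → P.Space := fun n => ∑ i ∈ G n, a i • P.unit i
  have hcomp : ∀ (φ : StrongDual ℝ P.Space) (n : ℕ),
      φ (x n) = Φ (φ.comp (P.proj (G n : Set I))) := by
    intro φ n
    have : φ.comp (P.proj (G n : Set I)) = ∑ i ∈ G n, φ (P.unit i) • P.crd i := by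
      ext y
      simp [proj_finset, mul_comm]
    rw [this]
    simp [x, a, mul_comm]
  have hcn : ∀ (φ : StrongDual ℝ P.Space) (A : Set I), ‖φ.comp (P.proj A)‖ ≤ ‖φ‖ := by
    intro φ A
    refine ContinuousLinearMap.opNorm_le_bound _ (norm_nonneg _) fun y => ?_
    refine (φ.le_opNorm _).trans ?_
    gcongr
    exact norm_proj_le _ _
  have hxn : ∀ n, ‖x n‖ ≤ ‖Φ‖ := by
    intro n
    refine NormedSpace.norm_le_dual_bound ℝ _ Φ.opNorm_nonneg fun φ => ?_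
    rw [hcomp]
    refine (Φ.le_opNorm _).trans ?_
    gcongr
    exact hcn _ _
  have hxfn : ∀ n i, (x n).fn i = (G n : Set I).indicator a i := by
    intro n i
    simp only [x]
    rw [fn_sum]
    by_cases h : i ∈ G n <;> simp [h]
  have ha : P.ρ (fun i => ‖a i‖ₑ) ≠ ∞ := by
    refine ne_top_of_le_ne_top (b := ‖Φ‖ₑ) enorm_ne_top ?_
    refine P.fatou _ _ (fun n i => ‖(x n).fn i‖ₑ) ?_ ?_ ?_
    · intro n m hnm i
      simp only [hxfn]
      by_cases h : i ∈ G n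
      · simp [h, hG hnm h]
      · simp [h]
    · intro i
      obtain ⟨n, hn⟩ := hex i
      refine le_iSup_of_le n ?_
      simp [hxfn, hn]
    · intro n
      rw [← enorm_def, ← ofReal_norm, ← ofReal_norm]
      exact ENNReal.ofReal_le_ofReal (hxn n)
  refine ⟨P.mkSp a ha, ?_⟩
  ext φ
  rw [NormedSpace.dual_def]
  refine eq_of_forall_dist_le fun ε hε => ?_
  set z := P.mkSp a ha with hz
  obtain ⟨n₁, hn₁⟩ := shrinking hG hT hR φ (ε := ε / (2 * (‖Φ‖ + 1))) (by positivity)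
  obtain ⟨n, hn, hn2⟩ := hT.exists_ge hG z (ε := ε / (2 * (‖φ‖ + 1))) (by positivity) n₁
  have h1 := hn2 n le_rfl
  have h2 : ‖φ.comp (P.proj (G n : Set I)ᶜ)‖ ≤ ε / (2 * (‖Φ‖ + 1)) := by
    refine le_trans ?_ hn₁
    have : φ.comp (P.proj (G n : Set I)ᶜ) =
        (φ.comp (P.proj (G n₁ : Set I)ᶜ)).comp (P.proj (G n : Set I)ᶜ) := by
      ext y
      simp only [ContinuousLinearMap.comp_apply]
      congr 1
      ext i
      by_cases h : i ∈ G n
      · simp [h, indicator]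
      · have : i ∉ G n₁ := fun h' => h (hG hn h')
        simp [h, this]
    rw [this]
    exact hcn _ _
  have h3 : P.proj (G n : Set I) z = x n := by
    ext i
    rw [hxfn, fn_proj, hz, fn_mkSp]
  have h4 : φ z = φ (x n) + φ (P.proj (G n : Set I)ᶜ z) := by
    rw [← h3, ← map_add, proj_add_compl]
  have h5 : Φ φ = φ (x n) + Φ (φ.comp (P.proj (G n : Set I)ᶜ)) := by
    rw [hcomp, ← map_add]
    congr 1
    ext y
    simp only [ContinuousLinearMap.comp_apply, _root_.add_apply]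
    rw [← map_add, proj_add_compl]
  have h6 : |φ (P.proj (G n : Set I)ᶜ z)| ≤ ε / 2 := by
    refine (φ.le_opNorm _).trans ?_
    calc ‖φ‖ * ‖P.proj (G n : Set I)ᶜ z‖ ≤ (‖φ‖ + 1) * (ε / (2 * (‖φ‖ + 1))) := by
          gcongr
          linarith
      _ = ε / 2 := by field_simp
  have h7 : |Φ (φ.comp (P.proj (G n : Set I)ᶜ))| ≤ ε / 2 := by
    refine (Φ.le_opNorm _).trans ?_
    calc ‖Φ‖ * ‖φ.comp (P.proj (G n : Set I)ᶜ)‖ ≤ (‖Φ‖ + 1) * (ε / (2 * (‖Φ‖ + 1))) := by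
          gcongr
          linarith
      _ = ε / 2 := by field_simp
  rw [Real.dist_eq, h4, h5, add_sub_add_left_eq_sub]
  have := abs_sub (φ (P.proj (G n : Set I)ᶜ z)) (Φ (φ.comp (P.proj (G n : Set I)ᶜ)))
  linarith

lemma game (hG : Monotone G) (hT : P.TailsVanish G) {δ : ℝ} (hδ : 0 < δ) (N : ℕ)
    (Q : (Fin N → P.Space) → Prop) (hQ : VectorPlayerWins P.Space N Q) (n₀ : ℕ) :
    ∃ (x : Fin N → P.Space) (s : ℕ → ℕ), Monotone s ∧ s 0 = n₀ ∧ Q x ∧
      ∀ i : Fin N, ‖x i‖ = 1 ∧ (∀ a ∈ G (s i), (x i).fn a = 0) ∧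
        ‖P.proj (G (s (i + 1)) : Set I)ᶜ (x i)‖ ≤ δ := by
  induction N generalizing n₀ with
  | zero => exact ⟨Fin.elim0, fun _ => n₀, monotone_const, rfl, hQ, fun i => i.elim0⟩
  | succ N ih =>
    let L : P.Space →L[ℝ] (G n₀ → ℝ) := ContinuousLinearMap.pi (fun a => P.crd a.1)
    obtain ⟨x₀, hx₀, hx1, hwin⟩ := hQ (LinearMap.ker L.toLinearMap) L.isClosed_ker
      (L.toLinearMap.quotKerEquivRange.symm.finiteDimensional)
    obtain ⟨n₁, hn₁, hn2⟩ := hT.exists_ge hG x₀ hδ n₀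
    obtain ⟨x, s, hs, hs0, hQx, hx⟩ := ih _ hwin n₁
    refine ⟨Fin.cons x₀ x, fun i => Nat.casesOn i n₀ s, ?_, rfl, hQx, ?_⟩
    · refine monotone_nat_of_le_succ fun i => ?_
      cases i with
      | zero => exact hn₁.trans hs0.ge
      | succ i => exact hs (Nat.le_succ i)
    · intro i
      refine Fin.cases ?_ (fun i => ?_) i
      · refine ⟨hx1, fun a ha => ?_, ?_⟩
        · exact congrFun (LinearMap.mem_ker.1 hx₀) ⟨a, ha⟩
        · exact hn2 _ hs0.ge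
      · exact hx i

theorem asymptotic {C : ℝ≥0} (hG : Monotone G) (hT : P.TailsVanish G)
    (hR : P.RingEstimate G C) : IsAsymptoticSubsequentialC0 P.Space := by
  classical
  refine ⟨4 * (C + 1), by nlinarith [C.2], fun n => ?_⟩
  obtain ⟨N, hN⟩ := hR.vec n
  refine ⟨N, fun E _ _ e he => ?_⟩
  set δ : ℝ := 1 / (2 * (n + 1)) with hδ
  have hδ0 : 0 < δ := by positivity
  have hδ1 : (n + 1) * δ = 1 / 2 := by rw [hδ]; field_simp
  obtain ⟨x, s, hs, hs0, ⟨A, B, hA, hB, hAB, hx⟩, hxs⟩ :=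
    game hG hT hδ0 N _ (he.2 1 one_pos) n
  obtain ⟨σ, hσ⟩ := hN s hs hs0.ge (fun i => P.proj (G (s (i + 1)) : Set I) (x i))
    (fun i => (norm_proj_le _ _).trans (hxs i).1.le) (by
      intro i a ha
      rw [fn_proj] at ha
      refine ⟨mem_of_indicator_ne_zero ha, fun h => ha ?_⟩
      simp [indicator, (hxs i).2.1 a h])
  have hsmall : ∀ (c : Fin n → ℝ) (z : Fin n → P.Space), (∀ l, ‖z l‖ ≤ δ) →
      ‖∑ l, c l • z l‖ ≤ n * δ * ‖c‖ := by
    intro c z hz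
    refine (norm_sum_le _ _).trans ?_
    calc ∑ l, ‖c l • z l‖ ≤ ∑ _l : Fin n, ‖c‖ * δ := by
          refine Finset.sum_le_sum fun l _ => ?_
          rw [norm_smul]
          gcongr
          · exact norm_le_pi_norm c l
          · exact hz l
      _ = n * δ * ‖c‖ := by simp; ring
  have hup : ∀ c : Fin n → ℝ, ‖∑ l, c l • x (σ l)‖ ≤ (C + 1) * ‖c‖ := by
    intro c
    have h1 : ∑ l, c l • x (σ l) =
        ∑ l, c l • P.proj (G (s (σ l + 1)) : Set I) (x (σ l)) +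
          ∑ l, c l • P.proj (G (s (σ l + 1)) : Set I)ᶜ (x (σ l)) := by
      rw [← Finset.sum_add_distrib]
      refine Finset.sum_congr rfl fun l _ => ?_
      rw [← smul_add, proj_add_compl]
    rw [h1]
    refine (norm_add_le _ _).trans ?_
    have h2 := hσ c
    have h3 := hsmall c _ (fun l => (hxs (σ l)).2.2)
    have h4 := norm_nonneg c
    nlinarith
  have hlow : ∀ c : Fin n → ℝ, ‖c‖ / 2 ≤ ‖∑ l, c l • x (σ l)‖ := by
    intro c
    rcases Nat.eq_zero_or_pos n with h0 | h0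
    · subst h0
      rw [Subsingleton.elim c 0, norm_zero, zero_div]
      exact norm_nonneg _
    have : Nonempty (Fin n) := ⟨⟨0, h0⟩⟩
    obtain ⟨l₀, -, hl₀⟩ := Finset.exists_max_image Finset.univ (fun l => ‖c l‖)
      Finset.univ_nonempty
    have hc : ‖c‖ ≤ ‖c l₀‖ :=
      (pi_norm_le_iff_of_nonneg (norm_nonneg _)).2 fun l => hl₀ l (Finset.mem_univ l)
    set R : Set I := (G (s (σ l₀ + 1)) : Set I) ∩ (G (s (σ l₀)) : Set I)ᶜ with hRdef
    let z : Fin n → P.Space := fun l => if l = l₀ then 0 else P.proj R (x (σ l))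
    have hz : ∀ l, ‖z l‖ ≤ δ := by
      intro l
      simp only [z]
      split_ifs with h
      · simpa using hδ0.le
      rcases lt_or_gt_of_ne h with h1 | h1
      · refine le_trans (norm_proj_mono ?_ _) (hxs (σ l)).2.2
        intro a ha h2
        have h3 : (σ l : ℕ) + 1 ≤ σ l₀ := σ.strictMono h1
        exact ha.2 (hG (hs h3) h2)
      · have : P.proj R (x (σ l)) = 0 := by
          ext a
          by_cases h2 : a ∈ R
          · have h3 : (σ l₀ : ℕ) + 1 ≤ σ l := σ.strictMono h1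
            simp [h2, (hxs (σ l)).2.1 a (hG (hs h3) h2.1)]
          · simp [h2]
        simpa [this] using hδ0.le
    have h1 : P.proj R (∑ l, c l • x (σ l)) = c l₀ • P.proj R (x (σ l₀)) + ∑ l, c l • z l := by
      rw [map_sum, ← Finset.add_sum_erase _ _ (Finset.mem_univ l₀),
        ← Finset.add_sum_erase _ _ (Finset.mem_univ l₀)]
      simp only [z, if_true, smul_zero, zero_add, map_smul]
      congr 1
      refine Finset.sum_congr rfl fun l hl => ?_
      rw [if_neg (Finset.ne_of_mem_erase hl)]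
    have h2 : P.proj R (x (σ l₀)) = x (σ l₀) - P.proj (G (s (σ l₀ + 1)) : Set I)ᶜ (x (σ l₀)) := by
      ext a
      by_cases h3 : a ∈ G (s (σ l₀ + 1))
      · by_cases h4 : a ∈ G (s (σ l₀))
        · simp [indicator, (hxs (σ l₀)).2.1 a h4]
        · have : a ∈ R := ⟨h3, h4⟩
          simp [this, h3]
      · have : a ∉ R := fun h => h3 h.1
        simp [this, h3]
    have h3 : 1 - δ ≤ ‖P.proj R (x (σ l₀))‖ := by
      rw [h2]
      have := norm_sub_norm_le (x (σ l₀)) (P.proj (G (s (σ l₀ + 1)) : Set I)ᶜ (x (σ l₀)))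
      linarith [(hxs (σ l₀)).1, (hxs (σ l₀)).2.2]
    have h4 := hsmall c z hz
    have h5 := norm_proj_le R (∑ l, c l • x (σ l))
    have h6 : ‖c l₀ • P.proj R (x (σ l₀))‖ ≤
        ‖P.proj R (∑ l, c l • x (σ l))‖ + ‖∑ l, c l • z l‖ := by
      have : c l₀ • P.proj R (x (σ l₀)) =
          P.proj R (∑ l, c l • x (σ l)) - ∑ l, c l • z l := by rw [h1]; abel
      rw [this]
      exact norm_sub_le _ _
    rw [norm_smul] at h6
    have h7 : 0 ≤ 1 - δ := by nlinarith [(Nat.cast_nonneg n : (0 : ℝ) ≤ n)]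
    have h8 : ‖c‖ * (1 - δ) ≤ ‖c l₀‖ * ‖P.proj R (x (σ l₀))‖ := by gcongr
    nlinarith [norm_nonneg c]
  have hre : ∀ {Z : Type} [AddCommGroup Z] [Module ℝ Z] (v : Fin N → Z) (c : Fin n → ℝ),
      ∑ j, (∑ l, c l • (Pi.single (σ l) 1 : Fin N → ℝ)) j • v j = ∑ l, c l • v (σ l) := by
    intro Z _ _ v c
    simp only [Finset.sum_apply, Finset.sum_smul]
    rw [Finset.sum_comm]
    refine Finset.sum_congr rfl fun l _ => ?_
    simp [Pi.single_apply]
  have hsup : ∀ c : Fin n → ℝ, ∑ l, c l • (Pi.single l 1 : Fin n → ℝ) = c := by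
    intro c
    ext j
    simp [Finset.sum_apply, Pi.single_apply]
  refine ⟨σ, 2 * B, A * (C + 1), by positivity, by positivity, ?_, fun c => ?_⟩
  · nlinarith [C.2]
  obtain ⟨h1, h2⟩ := hx (∑ l, c l • (Pi.single (σ l) 1 : Fin N → ℝ))
  rw [hre, hre] at h1 h2
  rw [hsup]
  constructor
  · rw [inv_mul_le_iff₀ (by positivity)]
    linarith [hlow c]
  · rw [inv_mul_le_iff₀ hA] at h1
    refine h1.trans ?_
    rw [mul_assoc]
    gcongr
    exact hup c

end FnNorm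

end Pool.Agent.MP_6dccca_an
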