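import Pool.Agent.MP_6dccca_an.ModTs

/-! The Koethe dual of the modified Tsirelson norm. -/

open scoped ENNReal
open Set Function Filter

namespace Pool.Agent.MP_6dccca_an

variable {ι : Type*} (r : ι → ℕ)

/-- The dual norm. -/
noncomputable def mD (g : ι → ℝ≥0∞) : ℝ≥0∞ :=
  ⨆ (f : ι → ℝ≥0∞) (_ : mN r f ≤ 1), ∑' i, f i * g i

lemma tsum_le_mD {f : ι → ℝ≥0∞} (hf : mN r f ≤ 1) (g : ι → ℝ≥0∞) :
    ∑' i, f i * g i ≤ mD r g :=
  le_iSup_of_le f (le_iSup_of_le hf le_rfl)

lemma mD_le {g : ι → ℝ≥0∞} {M : ℝ≥0∞} (h : ∀ f, mN r f ≤ 1 → ∑' i, f i * g i ≤ M) :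
    mD r g ≤ M :=
  iSup_le fun f => iSup_le fun hf => h f hf

lemma mD_le_comb (a b : ℝ≥0∞) {h f g : ι → ℝ≥0∞} (hle : ∀ i, h i ≤ a * f i + b * g i) :
    mD r h ≤ a * mD r f + b * mD r g := by
  refine mD_le r fun w hw => ?_
  calc ∑' i, w i * h i ≤ ∑' i, (a * (w i * f i) + b * (w i * g i)) := by
        refine ENNReal.tsum_le_tsum fun i => ?_
        calc w i * h i ≤ w i * (a * f i + b * g i) := by gcongr; exact hle i
          _ = _ := by ring
    _ = a * ∑' i, w i * f i + b * ∑' i, w i * g i := by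
        rw [ENNReal.tsum_add, ENNReal.tsum_mul_left, ENNReal.tsum_mul_left]
    _ ≤ a * mD r f + b * mD r g := by
        gcongr <;> exact tsum_le_mD r hw _

lemma le_mD (g : ι → ℝ≥0∞) (i : ι) : g i ≤ mD r g := by
  classical
  have h1 : mN r (Pi.single i 1) ≤ 1 := by
    refine (mN_le_tsum r _).trans ?_
    rw [tsum_eq_single i (fun j hj => Pi.single_eq_of_ne hj _)]
    simp
  refine le_trans ?_ (tsum_le_mD r h1 g)
  refine le_trans ?_ (ENNReal.le_tsum i)
  simp

lemma mD_le_tsum (g : ι → ℝ≥0∞) : mD r g ≤ ∑' i, g i := by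
  refine mD_le r fun f hf => ENNReal.tsum_le_tsum fun i => ?_
  calc f i * g i ≤ 1 * g i := by
        gcongr
        exact (le_mN r f i).trans hf
    _ = g i := one_mul _

lemma mD_mono {f g : ι → ℝ≥0∞} (h : ∀ i, f i ≤ g i) : mD r f ≤ mD r g := by
  simpa using mD_le_comb r 1 0 (h := f) (f := g) (g := g) (by simpa using h)

lemma mD_zero : mD r 0 = 0 := by
  have := mD_le_tsum r 0
  simpa using this

lemma tsum_le_mN_mul_mD (f g : ι → ℝ≥0∞) : ∑' i, f i * g i ≤ mN r f * mD r g := by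
  by_cases h0 : mN r f = 0
  · have : ∀ i, f i = 0 := fun i => le_antisymm (h0 ▸ le_mN r f i) zero_le
    simp [this]
  by_cases ht : mN r f = ∞
  · by_cases hg : mD r g = 0
    · have : ∀ i, g i = 0 := fun i => le_antisymm (hg ▸ le_mD r g i) zero_le
      simp [this]
    · rw [ht, ENNReal.top_mul hg]
      exact le_top
  have h1 : mN r (fun i => (mN r f)⁻¹ * f i) ≤ 1 := by
    refine (mN_le_mul r (mN r f)⁻¹ (f := f) (fun i => le_rfl)).trans ?_
    rw [ENNReal.inv_mul_cancel h0 ht]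
  have h2 := tsum_le_mD r h1 g
  calc ∑' i, f i * g i = mN r f * ∑' i, (mN r f)⁻¹ * f i * g i := by
        rw [← ENNReal.tsum_mul_left]
        congr 1
        ext i
        rw [← mul_assoc, ← mul_assoc, ENNReal.mul_inv_cancel h0 ht, one_mul]
    _ ≤ mN r f * mD r g := by gcongr

/-- The upper `ℓ∞` estimate for disjoint vectors far out. -/
lemma mD_le_two_mul {κ : Type*} [Fintype κ] {A : κ → Set ι} (hA : Pairwise (Disjoint on A))
    (hr : ∀ l, ∀ i ∈ A l, Fintype.card κ ≤ r i) {g : ι → ℝ≥0∞} (v : κ → ι → ℝ≥0∞)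
    (hg : ∀ i, g i ≤ ∑ l, (A l).indicator (v l) i) {M : ℝ≥0∞} (hv : ∀ l, mD r (v l) ≤ M) :
    mD r g ≤ 2 * M := by
  refine mD_le r fun f hf => ?_
  calc ∑' i, f i * g i ≤ ∑' i, ∑ l, (A l).indicator f i * v l i := by
        refine ENNReal.tsum_le_tsum fun i => ?_
        calc f i * g i ≤ f i * ∑ l, (A l).indicator (v l) i := by gcongr; exact hg i
          _ = ∑ l, (A l).indicator f i * v l i := by
            rw [Finset.mul_sum]
            apply Finset.sum_congr rfl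
            intro l _
            by_cases hi : i ∈ A l
            · simp [hi]
            · simp [hi]
    _ = ∑ l, ∑' i, (A l).indicator f i * v l i :=
        Summable.tsum_finsetSum (fun _ _ => ENNReal.summable)
    _ ≤ ∑ l, mN r ((A l).indicator f) * M := by
        refine Finset.sum_le_sum fun l _ => (tsum_le_mN_mul_mD r _ _).trans ?_
        gcongr
        exact hv l
    _ = (∑ l, mN r ((A l).indicator f)) * M := (Finset.sum_mul _ _ _).symm
    _ ≤ (2 * mN r f) * M := by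
        gcongr
        exact sum_le_two_mN r hA f (fun l i hi _ => hr l i hi)
    _ ≤ (2 * 1) * M := by gcongr
    _ = 2 * M := by rw [mul_one]

/-- The Fatou property. -/
lemma mD_le_of_directed {g : ι → ℝ≥0∞} {M : ℝ≥0∞} (v : ℕ → ι → ℝ≥0∞) (hv : Monotone v)
    (hg : ∀ i, g i ≤ ⨆ n, v n i) (hM : ∀ n, mD r (v n) ≤ M) : mD r g ≤ M := by
  refine mD_le r fun f hf => ?_
  rw [ENNReal.tsum_eq_iSup_sum]
  refine iSup_le fun s => ?_
  calc ∑ i ∈ s, f i * g i ≤ ∑ i ∈ s, ⨆ n, f i * v n i := by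
        refine Finset.sum_le_sum fun i _ => ?_
        rw [← ENNReal.mul_iSup]
        gcongr
        exact hg i
    _ = ⨆ n, ∑ i ∈ s, f i * v n i := by
        apply ENNReal.finsetSum_iSup_of_monotone
        intro i n m hnm
        exact mul_le_mul_right (hv hnm i) _
    _ ≤ M := by
        refine iSup_le fun n => le_trans ?_ ((tsum_le_mD r hf (v n)).trans (hM n))
        exact ENNReal.sum_le_tsum s

lemma exists_block {g : ι → ℝ≥0∞} {l : ℝ≥0∞} (n : ℕ)
    (h : l < mD r ({i | n ≤ r i}.indicator g)) :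
    ∃ (u : ι → ℝ≥0∞) (b : ℕ), mN r u ≤ 1 ∧ (∀ x, u x ≠ 0 → n ≤ r x ∧ r x ≤ b) ∧
      l ≤ ∑' i, u i * g i := by
  classical
  rw [mD, lt_iSup_iff] at h
  obtain ⟨f, h⟩ := h
  rw [lt_iSup_iff] at h
  obtain ⟨hf, h⟩ := h
  rw [ENNReal.tsum_eq_iSup_sum, lt_iSup_iff] at h
  obtain ⟨s, h⟩ := h
  refine ⟨((s : Set ι) ∩ {i | n ≤ r i}).indicator f, s.sup r,
    (mN_mono r (fun x => indicator_le_self _ _ x)).trans hf, ?_, ?_⟩
  · intro x hx
    have := mem_of_indicator_ne_zero hx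
    exact ⟨this.2, Finset.le_sup (f := r) this.1⟩
  · refine h.le.trans (le_trans ?_ (ENNReal.sum_le_tsum s))
    refine Finset.sum_le_sum fun i hi => ?_
    by_cases h2 : n ≤ r i
    · rw [indicator_of_mem (show i ∈ {i | n ≤ r i} from h2),
        indicator_of_mem (show i ∈ (s : Set ι) ∩ {i | n ≤ r i} from ⟨hi, h2⟩)]
    · rw [indicator_of_notMem (show i ∉ {i | n ≤ r i} from h2)]
      simp

/-- Tails of an element of the dual space tend to zero. -/
lemma mD_tail {g : ι → ℝ≥0∞} (hg : mD r g ≠ ∞) {ε : ℝ≥0∞} (hε : 0 < ε) :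
    ∃ n, mD r ({i | n ≤ r i}.indicator g) ≤ ε := by
  by_contra hcon
  push Not at hcon
  set L := ⨅ n, mD r ({i | n ≤ r i}.indicator g) with hL
  have hL0 : L ≠ 0 := by
    have : ε ≤ L := le_iInf fun n => (hcon n).le
    exact (hε.trans_le this).ne'
  have hLt : L ≠ ∞ := by
    refine ne_top_of_le_ne_top hg ((iInf_le _ 0).trans ?_)
    exact mD_mono r (fun x => indicator_le_self _ _ x)
  have hlow : (15 / 16 : ℝ≥0∞) * L < L := by
    conv_rhs => rw [← one_mul L]
    refine ENNReal.mul_lt_mul_left hL0 hLt ?_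
    rw [ENNReal.div_lt_iff (by norm_num) (by norm_num)]
    norm_num
  have hup : L < (17 / 16 : ℝ≥0∞) * L := by
    conv_lhs => rw [← one_mul L]
    refine ENNReal.mul_lt_mul_left hL0 hLt ?_
    rw [ENNReal.lt_div_iff_mul_lt (by norm_num) (by norm_num)]
    norm_num
  obtain ⟨n₀, hn₀⟩ := iInf_lt_iff.1 hup
  have hsel : ∀ n, ∃ (u : ι → ℝ≥0∞) (b : ℕ), mN r u ≤ 1 ∧ (∀ x, u x ≠ 0 → n ≤ r x ∧ r x ≤ b) ∧
      (15 / 16 : ℝ≥0∞) * L ≤ ∑' i, u i * g i := fun n =>
    exists_block r n (hlow.trans_le (iInf_le _ n))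
  choose U B hU1 hU2 hU3 using hsel
  set m := max (max (B n₀) n₀) 1 with hm
  let b : ℕ → ℕ := fun i => Nat.rec m (fun _ c => max c (B (m * c + c + 1))) i
  have hb0 : b 0 = m := rfl
  have hbs : ∀ i, b (i + 1) = max (b i) (B (m * b i + b i + 1)) := fun i => rfl
  have hbm : Monotone b := monotone_nat_of_le_succ fun i => by rw [hbs]; exact le_max_left _ _
  let u : ℕ → ι → ℝ≥0∞ := fun i => U (m * b i + b i + 1)
  have hu : ∀ i x, u i x ≠ 0 → b i < r x ∧ r x ≤ b (i + 1) := by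
    intro i x hx
    have := hU2 _ x hx
    rw [hbs]
    constructor
    · omega
    · exact this.2.trans (le_max_right _ _)
  have hu' : ∀ i x, u i x ≠ 0 → m * b i ≤ r x := by
    intro i x hx
    have := hU2 _ x hx
    omega
  have hm1 : 1 ≤ m := le_max_right _ _
  have h74 := mN_seven_quarters r b hbm m (U n₀)
    (fun x hx => (hU2 _ x hx).2.trans ((le_max_left _ _).trans (le_max_left _ _))) (hU1 _) u hu hu'
    (fun i => hU1 _) (2 * m) (by omega)
  set z : ι → ℝ≥0∞ := fun x => (2 * m : ℕ) * U n₀ x + ∑ i ∈ Finset.range (2 * m), u i x with hz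
  have hz1 : ∑' i, z i * g i = ∑' i, z i * ({i | n₀ ≤ r i}.indicator g) i := by
    congr 1
    ext x
    by_cases hx : n₀ ≤ r x
    · rw [indicator_of_mem (show x ∈ {i | n₀ ≤ r i} from hx)]
    · have h1 : U n₀ x = 0 := by
        by_contra h0
        exact hx (hU2 _ x h0).1
      have h2 : ∀ i, u i x = 0 := by
        intro i
        by_contra h0
        have h3 := (hu i x h0).1
        have h4 : b 0 ≤ b i := hbm (Nat.zero_le i)
        have h5 : n₀ ≤ m := (le_max_right _ _).trans (le_max_left _ _)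
        omega
      simp [hz, h1, h2]
  have hz2 : ∑' i, z i * g i ≤ (((2 * m : ℕ) : ℝ≥0∞) + 2⁻¹ * (m + (2 * m : ℕ))) *
      ((17 / 16 : ℝ≥0∞) * L) := by
    rw [hz1]
    refine (tsum_le_mN_mul_mD r _ _).trans ?_
    gcongr
  have hz3 : ((2 * m : ℕ) : ℝ≥0∞) * ((15 / 16 : ℝ≥0∞) * L) +
      ((2 * m : ℕ) : ℝ≥0∞) * ((15 / 16 : ℝ≥0∞) * L) ≤ ∑' i, z i * g i := by
    have : ∑' i, z i * g i = ((2 * m : ℕ) : ℝ≥0∞) * ∑' i, U n₀ i * g i +
        ∑ j ∈ Finset.range (2 * m), ∑' i, u j i * g i := by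
      rw [← ENNReal.tsum_mul_left, ← Summable.tsum_finsetSum (fun _ _ => ENNReal.summable),
        ← ENNReal.tsum_add]
      congr 1
      ext x
      simp only [hz]
      rw [add_mul, Finset.sum_mul, mul_assoc]
    rw [this]
    gcongr
    · exact hU3 _
    · calc ((2 * m : ℕ) : ℝ≥0∞) * ((15 / 16 : ℝ≥0∞) * L)
          = ∑ _j ∈ Finset.range (2 * m), (15 / 16 : ℝ≥0∞) * L := by simp
        _ ≤ _ := Finset.sum_le_sum fun j _ => hU3 _
  have hfin := hz3.trans hz2
  have hL0' : (0 : ℝ) < L.toReal := ENNReal.toReal_pos hL0 hLt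
  have hm1' : (1 : ℝ) ≤ m := by exact_mod_cast hm1
  have h := ENNReal.toReal_mono (by finiteness) hfin
  rw [ENNReal.toReal_add (by finiteness) (by finiteness)] at h
  simp only [ENNReal.toReal_mul, ENNReal.toReal_div, ENNReal.toReal_natCast,
    ENNReal.toReal_ofNat] at h
  rw [ENNReal.toReal_add (by finiteness) (by finiteness), ENNReal.toReal_mul,
    ENNReal.toReal_add (by finiteness) (by finiteness)] at h
  simp only [ENNReal.toReal_natCast, ENNReal.toReal_inv, ENNReal.toReal_ofNat] at h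
  push_cast at h
  nlinarith

end Pool.Agent.MP_6dccca_an
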