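import Mathlib

/-! The combinatorial part of the embedding of the Hamming graphs. -/

open Function

namespace Pool.Agent.MP_6dccca_an

variable {k : ℕ}

/-- The first `k - j - 1` entries of `m`, followed by zeros. -/
def pre (j : Fin k) (m : Fin k → ℕ) : Fin k → ℕ := fun i => if i < j.rev then m i else 0

/-- Coordinate used for the top entry `p` and the test tuple `q`. -/
def code (p : ℕ) (q : Fin k → ℕ) : ℕ :=
  Nat.pair ((p + 1) ^ k) (Nat.pair p (Encodable.encode q))

lemma code_inj {p p' : ℕ} {q q' : Fin k → ℕ} (h : code p q = code p' q') : p = p' ∧ q = q' := by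
  unfold code at h
  have h1 := (Nat.pair_eq_pair.1 h).2
  have h2 := Nat.pair_eq_pair.1 h1
  exact ⟨h2.1, Encodable.encode_injective h2.2⟩

/-- Test tuples. -/
def tests (k p : ℕ) : Finset (Fin k → ℕ) := Fintype.piFinset (fun _ => Finset.range (p + 1))

lemma card_tests (p : ℕ) : (tests k p).card = (p + 1) ^ k := by
  simp [tests]

lemma pre_mem_tests (j : Fin k) (m : Fin k ↪o ℕ) : pre j m ∈ tests k (m j.rev) := by
  simp only [tests, Fintype.mem_piFinset, Finset.mem_range, pre]
  intro i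
  split_ifs with h
  · have := m.strictMono h
    omega
  · omega

lemma hammingDist_pre_le (j : Fin k) (m n : Fin k → ℕ) :
    hammingDist (pre j m) (pre j n) ≤ hammingDist m n := by
  unfold hammingDist
  apply Finset.card_le_card
  intro i hi
  simp only [Finset.mem_filter, Finset.mem_univ, true_and, pre] at hi ⊢
  intro h
  apply hi
  rw [h]

lemma hammingDist_le_pre (j : Fin k) (m n : Fin k → ℕ) :
    hammingDist m n ≤ hammingDist (pre j m) (pre j n) + (j + 1) := by
  unfold hammingDist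
  have h1 : (Finset.Ici j.rev).card = j + 1 := by
    rw [Fin.card_Ici, Fin.val_rev]
    omega
  rw [← h1]
  refine le_trans (Finset.card_le_card ?_) (Finset.card_union_le _ _)
  intro i hi
  simp only [Finset.mem_filter, Finset.mem_univ, true_and, pre, Finset.mem_union,
    Finset.mem_Ici] at hi ⊢
  by_cases h : i < j.rev
  · left
    simpa [h] using hi
  · right
    exact not_lt.1 h

/-- The shifted truncated distance. -/
noncomputable def wt (j : ℕ) (a q : Fin k → ℕ) : ℝ := 1 + min 1 ((hammingDist a q : ℝ) / 2 ^ j)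

lemma abs_wt_le (j : ℕ) (a q : Fin k → ℕ) : |wt j a q| ≤ 2 := by
  unfold wt
  have h1 : min 1 ((hammingDist a q : ℝ) / 2 ^ j) ≤ 1 := min_le_left _ _
  have h2 : 0 ≤ min 1 ((hammingDist a q : ℝ) / 2 ^ j) := le_min zero_le_one (by positivity)
  rw [abs_le]
  constructor <;> linarith

lemma abs_wt_sub_le (j : ℕ) (a b q : Fin k → ℕ) :
    |wt j a q - wt j b q| ≤ (hammingDist a b : ℝ) / 2 ^ j := by
  unfold wt
  rw [add_sub_add_left_eq_sub]
  refine (abs_min_sub_min_le_max _ _ _ _).trans ?_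
  rw [sub_self, abs_zero, max_le_iff]
  refine ⟨by positivity, ?_⟩
  rw [← sub_div, abs_div, abs_of_pos (by positivity : (0 : ℝ) < 2 ^ j)]
  gcongr
  have h1 : (hammingDist a q : ℝ) ≤ hammingDist a b + hammingDist b q := by
    exact_mod_cast hammingDist_triangle a b q
  have h2 : (hammingDist b q : ℝ) ≤ hammingDist a b + hammingDist a q := by
    exact_mod_cast hammingDist_triangle_left b q a
  rw [abs_le]
  constructor <;> linarith

theorem exists_inner_maps {X : Type*} [NormedAddCommGroup X] [NormedSpace ℝ X]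
    (e : ℕ → X) (ev : ℕ → X →ₗ[ℝ] ℝ) (hev : ∀ i x, |ev i x| ≤ ‖x‖) (hee : ∀ i, ev i (e i) = 1)
    (hne : ∀ i j, i ≠ j → ev i (e j) = 0)
    (hU : ∀ (S : Finset ℕ) (a : ℕ → ℝ) (M : ℝ), 0 ≤ M → (∀ i ∈ S, S.card ≤ i) →
      (∀ i ∈ S, |a i| ≤ M) → ‖∑ i ∈ S, a i • e i‖ ≤ 2 * M)
    (k : ℕ) : ∃ g : ℕ → (Fin k ↪o ℕ) → X, (∀ j, k ≤ j → ∀ m, g j m = 0) ∧
      (∀ m n : Fin k ↪o ℕ, ∑ j ∈ Finset.range k, ‖g j m - g j n‖ ≤
        12 * (hammingDist (m : Fin k → ℕ) n : ℝ)) ∧
      ∀ (m n : Fin k ↪o ℕ) (j : ℕ), j < Nat.log 2 (hammingDist (m : Fin k → ℕ) n) →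
        1 ≤ ‖g j m - g j n‖ := by
  classical
  have hU' : ∀ (p : ℕ) (a : (Fin k → ℕ) → ℝ) (M : ℝ), 0 ≤ M → (∀ q, |a q| ≤ M) →
      ‖∑ q ∈ tests k p, a q • e (code p q)‖ ≤ 2 * M := by
    intro p a M hM ha
    have hinj : Injective (code (k := k) p) := fun q q' h => (code_inj h).2
    have := hU ((tests k p).image (code p)) (fun i => a (invFun (code p) i)) M hM ?_
      (fun i _ => ha _)
    · rw [Finset.sum_image (fun q _ q' _ h => hinj h)] at this
      simpa [leftInverse_invFun hinj _] using this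
    · intro i hi
      obtain ⟨q, -, rfl⟩ := Finset.mem_image.1 hi
      rw [Finset.card_image_of_injective _ hinj, card_tests]
      exact Nat.left_le_pair _ _
  let g' : Fin k → (Fin k ↪o ℕ) → X := fun j m =>
    ∑ q ∈ tests k (m j.rev), wt j (pre j m) q • e (code (m j.rev) q)
  have hev1 : ∀ (p : ℕ) (a : (Fin k → ℕ) → ℝ) (q₀ : Fin k → ℕ), q₀ ∈ tests k p →
      ev (code p q₀) (∑ q ∈ tests k p, a q • e (code p q)) = a q₀ := by
    intro p a q₀ hq₀
    rw [map_sum, Finset.sum_eq_single_of_mem q₀ hq₀]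
    · simp [hee]
    · intro q _ hq
      rw [map_smul, hne _ _ (fun h => hq (code_inj h).2.symm)]
      simp
  have hev2 : ∀ (p p' : ℕ) (a : (Fin k → ℕ) → ℝ) (q₀ : Fin k → ℕ), p ≠ p' →
      ev (code p q₀) (∑ q ∈ tests k p', a q • e (code p' q)) = 0 := by
    intro p p' a q₀ hp
    rw [map_sum]
    apply Finset.sum_eq_zero
    intro q _
    rw [map_smul, hne _ _ (fun h => hp (code_inj h).1)]
    simp
  have hup : ∀ (j : Fin k) (m n : Fin k ↪o ℕ), ‖g' j m - g' j n‖ ≤
      8 * (if m j.rev ≠ n j.rev then 1 else 0) +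
        2 * (hammingDist (m : Fin k → ℕ) n : ℝ) * (1 / 2) ^ (j : ℕ) := by
    intro j m n
    by_cases h : m j.rev = n j.rev
    · simp only [g']
      rw [if_neg (by simpa using h), h, ← Finset.sum_sub_distrib]
      simp_rw [← sub_smul]
      refine (hU' _ _ _ (by positivity) (fun q => abs_wt_sub_le j _ _ q)).trans ?_
      have : (hammingDist (pre j m) (pre j n) : ℝ) ≤ hammingDist (m : Fin k → ℕ) n := by
        exact_mod_cast hammingDist_pre_le j m n
      rw [mul_zero, zero_add, one_div, inv_pow, mul_assoc, ← div_eq_mul_inv]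
      gcongr
    · rw [if_pos h]
      have h1 := hU' (m j.rev) _ 2 (by norm_num) (fun q => abs_wt_le j (pre j m) q)
      have h2 := hU' (n j.rev) _ 2 (by norm_num) (fun q => abs_wt_le j (pre j n) q)
      have h3 := norm_sub_le (g' j m) (g' j n)
      have h4 : 0 ≤ 2 * (hammingDist (m : Fin k → ℕ) n : ℝ) * (1 / 2) ^ (j : ℕ) := by positivity
      simp only [g'] at h3 ⊢
      linarith
  refine ⟨fun j m => if h : j < k then g' ⟨j, h⟩ m else 0, ?_, ?_, ?_⟩
  · intro j hj m
    exact dif_neg (not_lt.2 hj)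
  · intro m n
    rw [Finset.sum_range]
    simp only [Fin.is_lt, dif_pos, Fin.eta]
    refine (Finset.sum_le_sum fun j _ => hup j m n).trans ?_
    rw [Finset.sum_add_distrib, ← Finset.mul_sum, ← Finset.mul_sum]
    have h1 : ∑ j : Fin k, (if m j.rev ≠ n j.rev then (1 : ℝ) else 0) =
        hammingDist (m : Fin k → ℕ) n := by
      have := Equiv.sum_comp Fin.revPerm (fun j => if m j ≠ n j then (1 : ℝ) else 0)
      simp only [Fin.revPerm_apply] at this
      rw [this, Finset.sum_boole, hammingDist]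
    have h2 : ∑ j : Fin k, (1 / 2 : ℝ) ^ (j : ℕ) ≤ 2 := by
      rw [← Finset.sum_range (fun j => (1 / 2 : ℝ) ^ j)]
      exact sum_geometric_two_le k
    have h3 : (0 : ℝ) ≤ hammingDist (m : Fin k → ℕ) n := by positivity
    rw [h1]
    nlinarith
  · intro m n j hj
    set d := hammingDist (m : Fin k → ℕ) n with hd
    have hd0 : d ≠ 0 := by
      rintro h
      simp [h] at hj
    have hdk : d ≤ k := by simpa using hammingDist_le_card_fintype (x := (m : Fin k → ℕ)) (y := n)
    have h2j : 2 ^ (j + 1) ≤ d := Nat.pow_le_of_le_log hd0 hj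
    have hj2 : j < 2 ^ j := Nat.lt_two_pow_self
    have hjk : j < k := by
      have : 2 ^ (j + 1) = 2 * 2 ^ j := by ring
      omega
    simp only [dif_pos hjk]
    set J : Fin k := ⟨j, hjk⟩ with hJ
    refine le_trans ?_ (hev (code (m J.rev) (pre J m)) _)
    rw [map_sub]
    simp only [g']
    rw [hev1 _ _ _ (pre_mem_tests J m)]
    by_cases h : m J.rev = n J.rev
    · rw [← h, hev1 _ _ _ (pre_mem_tests J m)]
      have h3 := hammingDist_le_pre J m n
      have h4 : 2 ^ j ≤ hammingDist (pre J n) (pre J m) := by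
        rw [hammingDist_comm]
        have : 2 ^ (j + 1) = 2 * 2 ^ j := by ring
        have : (J : ℕ) = j := rfl
        omega
      have h5 : (1 : ℝ) ≤ (hammingDist (pre J n) (pre J m) : ℝ) / 2 ^ j := by
        rw [le_div_iff₀ (by positivity), one_mul]
        exact_mod_cast h4
      have h6 : (J : ℕ) = j := rfl
      simp [wt, h6, min_eq_left h5]
    · rw [hev2 _ _ _ _ h]
      simp [wt]

end Pool.Agent.MP_6dccca_an
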