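import Mathlib

/-! Sequence spaces defined by a function norm. -/

open scoped ENNReal
open Set Function Filter

namespace Pool.Agent.MP_6dccca_an

/-- A lattice function norm with the Fatou property, between `ℓ∞` and `ℓ₁`. -/
structure FnNorm (I : Type) where
  /-- The norm on nonnegative functions. -/
  ρ : (I → ℝ≥0∞) → ℝ≥0∞
  comb : ∀ (a b : ℝ≥0∞) (h f g : I → ℝ≥0∞), (∀ i, h i ≤ a * f i + b * g i) →
    ρ h ≤ a * ρ f + b * ρ g
  le : ∀ f i, f i ≤ ρ f
  le_tsum : ∀ f, ρ f ≤ ∑' i, f i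
  fatou : ∀ (g : I → ℝ≥0∞) (M : ℝ≥0∞) (v : ℕ → I → ℝ≥0∞), Monotone v →
    (∀ i, g i ≤ ⨆ n, v n i) → (∀ n, ρ (v n) ≤ M) → ρ g ≤ M

namespace FnNorm

variable {I : Type} (P : FnNorm I)

lemma mono {f g : I → ℝ≥0∞} (h : ∀ i, f i ≤ g i) : P.ρ f ≤ P.ρ g := by
  simpa using P.comb 1 0 f g g (by simpa using h)

lemma le_add {h f g : I → ℝ≥0∞} (hle : ∀ i, h i ≤ f i + g i) : P.ρ h ≤ P.ρ f + P.ρ g := by
  simpa using P.comb 1 1 h f g (by simpa using hle)

lemma le_mul (a : ℝ≥0∞) {h f : I → ℝ≥0∞} (hle : ∀ i, h i ≤ a * f i) : P.ρ h ≤ a * P.ρ f := by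
  simpa using P.comb a 0 h f f (by simpa using hle)

lemma zero : P.ρ 0 = 0 := by simpa using P.le_tsum 0

lemma ne_top_of_finset (s : Finset I) {f : I → ℝ≥0∞} (hs : ∀ i ∉ s, f i = 0)
    (hf : ∀ i, f i ≠ ∞) : P.ρ f ≠ ∞ := by
  refine ne_top_of_le_ne_top ?_ (P.le_tsum f)
  rw [tsum_eq_sum hs]
  exact ENNReal.sum_ne_top.2 fun i _ => hf i

/-- The functions of finite norm. -/
def sub : Submodule ℝ (I → ℝ) where
  carrier := {x | P.ρ (fun i => ‖x i‖ₑ) ≠ ∞}
  add_mem' := by
    intro x y hx hy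
    exact ne_top_of_le_ne_top (ENNReal.add_ne_top.2 ⟨hx, hy⟩)
      (P.le_add (fun i => enorm_add_le _ _))
  zero_mem' := by
    have : (fun i => ‖(0 : I → ℝ) i‖ₑ) = 0 := by ext i; simp
    simp only [mem_ofPred_eq, this, P.zero]
    exact ENNReal.zero_ne_top
  smul_mem' := by
    intro c x hx
    exact ne_top_of_le_ne_top (ENNReal.mul_ne_top enorm_ne_top hx)
      (P.le_mul ‖c‖ₑ (fun i => by simp [enorm_mul]))

/-- The normed sequence space. -/
def Space : Type := P.sub

noncomputable instance : AddCommGroup P.Space := inferInstanceAs (AddCommGroup P.sub)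

noncomputable instance : Module ℝ P.Space := inferInstanceAs (Module ℝ P.sub)

variable {P} in
/-- The underlying function. -/
def Space.fn (x : P.Space) : I → ℝ := x.1

/-- Constructor for elements. -/
def mkSp (x : I → ℝ) (hx : P.ρ (fun i => ‖x i‖ₑ) ≠ ∞) : P.Space := ⟨x, hx⟩

@[simp] lemma fn_mkSp (x : I → ℝ) (hx) : (P.mkSp x hx).fn = x := rfl

variable {P}

lemma Space.ne_top (x : P.Space) : P.ρ (fun i => ‖x.fn i‖ₑ) ≠ ∞ := x.2

@[ext] lemma Space.ext {x y : P.Space} (h : ∀ i, x.fn i = y.fn i) : x = y :=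
  Subtype.ext (funext h)

@[simp] lemma fn_add (x y : P.Space) (i : I) : (x + y).fn i = x.fn i + y.fn i := rfl
@[simp] lemma fn_sub (x y : P.Space) (i : I) : (x - y).fn i = x.fn i - y.fn i := rfl
@[simp] lemma fn_neg (x : P.Space) (i : I) : (-x).fn i = - x.fn i := rfl
@[simp] lemma fn_smul (c : ℝ) (x : P.Space) (i : I) : (c • x).fn i = c * x.fn i := rfl
@[simp] lemma fn_zero (i : I) : (0 : P.Space).fn i = 0 := rfl

noncomputable instance : Norm P.Space := ⟨fun x => (P.ρ (fun i => ‖x.fn i‖ₑ)).toReal⟩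

lemma norm_def (x : P.Space) : ‖x‖ = (P.ρ (fun i => ‖x.fn i‖ₑ)).toReal := rfl

lemma rho_smul (c : ℝ) (x : I → ℝ) :
    P.ρ (fun i => ‖c * x i‖ₑ) = ‖c‖ₑ * P.ρ (fun i => ‖x i‖ₑ) := by
  have key : ∀ (c : ℝ) (x : I → ℝ),
      P.ρ (fun i => ‖c * x i‖ₑ) ≤ ‖c‖ₑ * P.ρ (fun i => ‖x i‖ₑ) :=
    fun c x => P.le_mul _ (fun i => by simp [enorm_mul])
  refine le_antisymm (key c x) ?_
  by_cases hc : c = 0
  · simp [hc]
  have := key c⁻¹ (fun i => c * x i)
  simp only [← mul_assoc, inv_mul_cancel₀ hc, one_mul] at this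
  calc ‖c‖ₑ * P.ρ (fun i => ‖x i‖ₑ) ≤ ‖c‖ₑ * (‖c⁻¹‖ₑ * P.ρ (fun i => ‖c * x i‖ₑ)) := by gcongr
    _ = _ := by rw [← mul_assoc, ← enorm_mul, mul_inv_cancel₀ hc]; simp

lemma core : NormedSpace.Core ℝ P.Space where
  norm_nonneg x := ENNReal.toReal_nonneg
  norm_smul c x := by
    rw [norm_def, norm_def]
    simp only [fn_smul]
    rw [rho_smul, ENNReal.toReal_mul]
    simp
  norm_triangle x y := by
    rw [norm_def, norm_def, norm_def, ← ENNReal.toReal_add x.ne_top y.ne_top]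
    exact ENNReal.toReal_mono (ENNReal.add_ne_top.2 ⟨x.ne_top, y.ne_top⟩)
      (P.le_add (fun i => enorm_add_le _ _))
  norm_eq_zero_iff x := by
    rw [norm_def]
    constructor
    · intro h
      rw [ENNReal.toReal_eq_zero_iff] at h
      have h0 := h.resolve_right x.ne_top
      ext i
      have := P.le (fun i => ‖x.fn i‖ₑ) i
      rw [h0] at this
      simpa using this
    · rintro rfl
      have : (fun i => ‖(0 : P.Space).fn i‖ₑ) = 0 := by ext i; simp
      rw [this, P.zero]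
      rfl

noncomputable instance : NormedAddCommGroup P.Space := NormedAddCommGroup.ofCore core

noncomputable instance : NormedSpace ℝ P.Space := NormedSpace.ofCore core

lemma enorm_def (x : P.Space) : ‖x‖ₑ = P.ρ (fun i => ‖x.fn i‖ₑ) := by
  rw [← ofReal_norm, norm_def, ENNReal.ofReal_toReal x.ne_top]

lemma norm_le_of_rho_le {x : P.Space} {M : ℝ} (hM : 0 ≤ M)
    (h : P.ρ (fun i => ‖x.fn i‖ₑ) ≤ ENNReal.ofReal M) : ‖x‖ ≤ M :=
  ENNReal.toReal_le_of_le_ofReal hM h

lemma norm_mono {x y : P.Space} (h : ∀ i, ‖x.fn i‖ₑ ≤ ‖y.fn i‖ₑ) : ‖x‖ ≤ ‖y‖ :=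
  ENNReal.toReal_mono y.ne_top (P.mono h)

lemma abs_fn_le (x : P.Space) (i : I) : |x.fn i| ≤ ‖x‖ := by
  have := ENNReal.toReal_mono x.ne_top (P.le (fun i => ‖x.fn i‖ₑ) i)
  rwa [toReal_enorm] at this

variable (P) in
/-- Coordinate functionals. -/
noncomputable def crd (i : I) : P.Space →L[ℝ] ℝ :=
  LinearMap.mkContinuous
    { toFun := fun x => x.fn i, map_add' := fun _ _ => rfl, map_smul' := fun _ _ => rfl } 1
    (fun x => by simpa using abs_fn_le x i)

@[simp] lemma crd_apply (i : I) (x : P.Space) : P.crd i x = x.fn i := rfl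

lemma fn_sum {κ : Type*} (s : Finset κ) (x : κ → P.Space) (i : I) :
    (∑ j ∈ s, x j).fn i = ∑ j ∈ s, (x j).fn i := by
  rw [← crd_apply, map_sum]
  rfl

lemma enorm_indicator_le (A : Set I) (x : I → ℝ) (i : I) : ‖A.indicator x i‖ₑ ≤ ‖x i‖ₑ := by
  by_cases h : i ∈ A
  · simp [h]
  · simp [h]

variable (P) in
/-- Restriction to a set of coordinates. -/
noncomputable def proj (A : Set I) : P.Space →L[ℝ] P.Space :=
  LinearMap.mkContinuous
    { toFun := fun x => P.mkSp (A.indicator x.fn)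
        (ne_top_of_le_ne_top x.ne_top (P.mono (enorm_indicator_le A x.fn)))
      map_add' := fun x y => by
        ext i
        by_cases h : i ∈ A <;> simp [h]
      map_smul' := fun c x => by
        ext i
        by_cases h : i ∈ A <;> simp [h] } 1
    (fun x => by
      rw [one_mul]
      exact norm_mono (enorm_indicator_le A x.fn))

@[simp] lemma fn_proj (A : Set I) (x : P.Space) (i : I) :
    (P.proj A x).fn i = A.indicator x.fn i := rfl

lemma norm_proj_le (A : Set I) (x : P.Space) : ‖P.proj A x‖ ≤ ‖x‖ :=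
  norm_mono (enorm_indicator_le A x.fn)

lemma norm_proj_mono {A B : Set I} (h : A ⊆ B) (x : P.Space) : ‖P.proj A x‖ ≤ ‖P.proj B x‖ := by
  apply norm_mono
  intro i
  by_cases hi : i ∈ A
  · simp [hi, h hi]
  · simp [hi]

lemma proj_add_compl (A : Set I) (x : P.Space) : P.proj A x + P.proj Aᶜ x = x := by
  ext i
  by_cases h : i ∈ A <;> simp [h]

variable (P) in
open Classical in
/-- Unit vectors. -/
noncomputable def unit (i : I) : P.Space :=
  P.mkSp (Pi.single i 1) (P.ne_top_of_finset {i}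
    (fun j hj => by simp [Pi.single_eq_of_ne (Finset.notMem_singleton.1 hj)])
    (fun _ => enorm_ne_top))

open Classical in
@[simp] lemma fn_unit (i j : I) : (P.unit i).fn j = if j = i then 1 else 0 := by
  simp [unit, Pi.single_apply]

lemma proj_finset (G : Finset I) (x : P.Space) :
    P.proj G x = ∑ i ∈ G, x.fn i • P.unit i := by
  classical
  ext j
  rw [fn_sum]
  by_cases h : j ∈ G <;> simp [h]

lemma not_finiteDimensional [Infinite I] : ¬ FiniteDimensional ℝ P.Space := by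
  intro h
  refine Module.Finite.not_linearIndependent_of_infinite (R := ℝ) P.unit ?_
  refine LinearIndependent.of_pairwise_dual_eq_zero_one P.unit
    (fun i => (P.crd i).toLinearMap) ?_ ?_
  · intro i j hij
    simp [hij]
  · intro i
    simp

/-- The sum of copies of the space of `Q` with respect to `P`. -/
noncomputable def sum {L : Type} (P : FnNorm I) (Q : FnNorm L) : FnNorm (I × L) where
  ρ f := P.ρ (fun j => Q.ρ (fun l => f (j, l)))
  comb a b h f g hle := P.comb a b _ _ _ (fun j => Q.comb a b _ _ _ (fun l => hle (j, l)))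
  le f i := (Q.le (fun l => f (i.1, l)) i.2).trans (P.le (fun j => Q.ρ (fun l => f (j, l))) i.1)
  le_tsum f := by
    refine (P.le_tsum _).trans ?_
    rw [ENNReal.tsum_prod']
    exact ENNReal.tsum_le_tsum fun j => Q.le_tsum _
  fatou g M v hv hg hM := by
    refine P.fatou _ M (fun n j => Q.ρ (fun l => v n (j, l))) ?_ ?_ hM
    · intro n m hnm j
      exact Q.mono fun l => hv hnm (j, l)
    · intro j
      refine Q.fatou _ _ (fun n l => v n (j, l)) (fun n m hnm l => hv hnm (j, l))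
        (fun l => hg (j, l)) fun n => ?_
      exact le_iSup (fun n => Q.ρ (fun l => v n (j, l))) n

end FnNorm

end Pool.Agent.MP_6dccca_an
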