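import Pool.Agent.MP_6dccca_an.Dual

open scoped ENNReal NNReal
open Set Function Filter

namespace Pool.Agent.MP_6dccca_an

variable {ι : Type*} (r : ι → ℕ)

/-- The dual norm of the sum of the unit vectors of rank below `J`. -/
noncomputable def growth (J : ℕ) : ℝ≥0∞ := mD r ({i | r i < J}.indicator 1)

lemma growth_mono : Monotone (growth r) := by
  intro J J' h
  apply mD_mono
  intro i
  exact indicator_le_indicator_of_subset (fun x (hx : r x < J) => show r x < J' from hx.trans_le h)
    (fun _ => zero_le) i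

lemma growth_ne_top (hfin : ∀ J, {i | r i < J}.Finite) (J : ℕ) : growth r J ≠ ∞ := by
  refine ne_top_of_le_ne_top ?_ (mD_le_tsum r _)
  rw [tsum_eq_sum (s := (hfin J).toFinset)
    (fun i hi => indicator_of_notMem (by simpa using hi) _)]
  refine ENNReal.sum_ne_top.2 fun i _ => ne_top_of_le_ne_top ENNReal.one_ne_top ?_
  exact indicator_le_self _ _ i

lemma growth_unbounded (hinf : ∀ n, ∃ i, n ≤ r i) (M : ℝ≥0) : ∃ J, (M : ℝ≥0∞) < growth r J := by
  by_contra hcon
  push Not at hcon
  have h1 : mD r 1 ≤ M := by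
    refine mD_le_of_directed r (fun J => {i | r i < J}.indicator 1) ?_ ?_ hcon
    · intro J J' h i
      exact indicator_le_indicator_of_subset
        (fun x (hx : r x < J) => show r x < J' from hx.trans_le h) (fun _ => zero_le) i
    · intro i
      refine le_iSup_of_le (r i + 1) ?_
      rw [indicator_of_mem (show i ∈ {j | r j < r i + 1} from Nat.lt_succ_self _)]
  obtain ⟨n, hn⟩ := mD_tail r (ne_top_of_le_ne_top ENNReal.coe_ne_top h1) (ε := 2⁻¹)
    (by norm_num)
  obtain ⟨i, hi⟩ := hinf n
  have h2 := (le_mD r _ i).trans hn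
  rw [indicator_of_mem (show i ∈ {j | n ≤ r j} from hi)] at h2
  norm_num at h2

/-- The compression function of the embedding. -/
noncomputable def lowerFn (t : ℝ≥0) : ℝ≥0 := (growth r (Nat.log 2 ⌊t⌋₊)).toNNReal

lemma lowerFn_mono (hfin : ∀ J, {i | r i < J}.Finite) : Monotone (lowerFn r) := by
  intro s t h
  exact ENNReal.toNNReal_mono (growth_ne_top r hfin _)
    (growth_mono r (Nat.log_mono_right (Nat.floor_le_floor h)))

lemma lowerFn_tendsto (hfin : ∀ J, {i | r i < J}.Finite) (hinf : ∀ n, ∃ i, n ≤ r i) :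
    Tendsto (lowerFn r) atTop atTop := by
  refine tendsto_atTop_atTop_of_monotone (lowerFn_mono r hfin) fun M => ?_
  obtain ⟨J, hJ⟩ := growth_unbounded r hinf M
  refine ⟨((2 ^ J : ℕ) : ℝ≥0), ?_⟩
  unfold lowerFn
  rw [Nat.floor_natCast, Nat.log_pow (by norm_num)]
  have := ENNReal.toNNReal_mono (growth_ne_top r hfin J) hJ.le
  simpa using this

lemma lowerFn_natCast (d : ℕ) : (lowerFn r d : ℝ) = (growth r (Nat.log 2 d)).toReal := by
  unfold lowerFn
  rw [Nat.floor_natCast]
  rfl

end Pool.Agent.MP_6dccca_an
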