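import Mathlib

/-! The modified Tsirelson function norm on an index type with a rank function `r`. -/

open scoped ENNReal
open Set Function

namespace Pool.Agent.MP_6dccca_an

variable {ι : Type*}

/-- Admissible families: `k` pairwise disjoint sets on which the rank is at least `k`. -/
def Adm (r : ι → ℕ) (k : ℕ) (A : Fin k → Set ι) : Prop :=
  Pairwise (Disjoint on A) ∧ ∀ l, ∀ i ∈ A l, k ≤ r i

/-- One step of the implicit equation. -/
noncomputable def mStep (r : ι → ℕ) :
    ((ι → ℝ≥0∞) → ℝ≥0∞) →o ((ι → ℝ≥0∞) → ℝ≥0∞) where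
  toFun ν f := max (⨆ i, f i)
    (⨆ (k : ℕ) (A : Fin k → Set ι) (_ : Adm r k A), 2⁻¹ * ∑ l, ν ((A l).indicator f))
  monotone' := by
    intro ν μ h f
    apply max_le_max le_rfl
    refine iSup_mono fun k => iSup_mono fun A => iSup_mono fun _ => ?_
    gcongr with l
    exact h _

/-- The modified Tsirelson norm. -/
noncomputable def mN (r : ι → ℕ) : (ι → ℝ≥0∞) → ℝ≥0∞ := (mStep r).lfp

variable (r : ι → ℕ)

lemma mN_eq (f : ι → ℝ≥0∞) : mN r f = max (⨆ i, f i)
    (⨆ (k : ℕ) (A : Fin k → Set ι) (_ : Adm r k A), 2⁻¹ * ∑ l, mN r ((A l).indicator f)) := by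
  have := congrFun (mStep r).map_lfp f
  exact this.symm

lemma le_mN (f : ι → ℝ≥0∞) (i : ι) : f i ≤ mN r f := by
  rw [mN_eq]
  exact le_max_of_le_left (le_iSup f i)

lemma half_sum_le_mN {k : ℕ} {A : Fin k → Set ι} (h : Adm r k A) (f : ι → ℝ≥0∞) :
    2⁻¹ * ∑ l, mN r ((A l).indicator f) ≤ mN r f := by
  conv_rhs => rw [mN_eq]
  refine le_max_of_le_right ?_
  exact le_iSup_of_le k (le_iSup_of_le A (le_iSup_of_le h le_rfl))

lemma mN_le {f : ι → ℝ≥0∞} {M : ℝ≥0∞} (h1 : ∀ i, f i ≤ M)
    (h2 : ∀ k (A : Fin k → Set ι), Adm r k A → 2⁻¹ * ∑ l, mN r ((A l).indicator f) ≤ M) :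
    mN r f ≤ M := by
  rw [mN_eq]
  exact max_le (iSup_le h1) (iSup_le fun k => iSup_le fun A => iSup_le fun h => h2 k A h)

lemma mN_le_of {ν : (ι → ℝ≥0∞) → ℝ≥0∞} (h1 : ∀ f i, f i ≤ ν f)
    (h2 : ∀ f k (A : Fin k → Set ι), Adm r k A → 2⁻¹ * ∑ l, ν ((A l).indicator f) ≤ ν f)
    (f : ι → ℝ≥0∞) : mN r f ≤ ν f := by
  refine (mStep r).lfp_le (a := ν) ?_ f
  intro f
  exact max_le (iSup_le (h1 f)) (iSup_le fun k => iSup_le fun A => iSup_le fun h => h2 f k A h)

lemma sum_indicator_le {κ : Type*} [Fintype κ] {A : κ → Set ι} (h : Pairwise (Disjoint on A))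
    (f : ι → ℝ≥0∞) (i : ι) : ∑ l, (A l).indicator f i ≤ f i := by
  classical
  by_cases hi : ∃ l, i ∈ A l
  · obtain ⟨l, hl⟩ := hi
    rw [Finset.sum_eq_single l]
    · exact indicator_le_self _ _ i
    · intro l' _ hl'
      apply indicator_of_notMem
      exact fun h' => Set.disjoint_left.1 (h hl') h' hl
    · simp
  · push Not at hi
    rw [Finset.sum_eq_zero (fun l _ => indicator_of_notMem (hi l) f)]
    exact zero_le

lemma mN_le_tsum (f : ι → ℝ≥0∞) : mN r f ≤ ∑' i, f i := by
  refine mN_le_of r (ν := fun f => ∑' i, f i) (fun f i => ENNReal.le_tsum i) ?_ f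
  intro f k A hA
  calc 2⁻¹ * ∑ l, ∑' i, (A l).indicator f i ≤ 1 * ∑ l, ∑' i, (A l).indicator f i := by
        gcongr
        norm_num
    _ = ∑' i, ∑ l, (A l).indicator f i := by
        rw [one_mul, Summable.tsum_finsetSum (fun _ _ => ENNReal.summable)]
    _ ≤ ∑' i, f i := ENNReal.tsum_le_tsum (sum_indicator_le hA.1 f)

lemma mN_zero : mN r 0 = 0 := by
  have := mN_le_tsum r 0
  simpa using this

lemma mN_le_comb (a b : ℝ≥0∞) {h f g : ι → ℝ≥0∞} (hle : ∀ i, h i ≤ a * f i + b * g i) :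
    mN r h ≤ a * mN r f + b * mN r g := by
  let ν : (ι → ℝ≥0∞) → ℝ≥0∞ := fun h =>
    ⨅ (f : ι → ℝ≥0∞) (g : ι → ℝ≥0∞) (_ : ∀ i, h i ≤ a * f i + b * g i), a * mN r f + b * mN r g
  have hν : ∀ h f g : ι → ℝ≥0∞, (∀ i, h i ≤ a * f i + b * g i) →
      ν h ≤ a * mN r f + b * mN r g := fun h f g hle =>
    iInf_le_of_le f (iInf_le_of_le g (iInf_le_of_le hle le_rfl))
  refine le_trans (mN_le_of r (ν := ν) ?_ ?_ h) (hν h f g hle)
  · intro h i
    refine le_iInf fun f => le_iInf fun g => le_iInf fun hle => (hle i).trans ?_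
    gcongr <;> exact le_mN r _ i
  · intro h k A hA
    refine le_iInf fun f => le_iInf fun g => le_iInf fun hle => ?_
    calc 2⁻¹ * ∑ l, ν ((A l).indicator h)
        ≤ 2⁻¹ * ∑ l, (a * mN r ((A l).indicator f) + b * mN r ((A l).indicator g)) := by
          gcongr with l
          apply hν
          intro i
          by_cases hi : i ∈ A l
          · simpa [hi] using hle i
          · simp [hi]
      _ = a * (2⁻¹ * ∑ l, mN r ((A l).indicator f)) +
            b * (2⁻¹ * ∑ l, mN r ((A l).indicator g)) := by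
          rw [Finset.sum_add_distrib, ← Finset.mul_sum, ← Finset.mul_sum]
          ring
      _ ≤ a * mN r f + b * mN r g := by
          gcongr <;> exact half_sum_le_mN r hA _

lemma mN_mono {f g : ι → ℝ≥0∞} (h : ∀ i, f i ≤ g i) : mN r f ≤ mN r g := by
  simpa using mN_le_comb r 1 0 (h := f) (f := g) (g := g) (by simpa using h)

lemma mN_le_add {h f g : ι → ℝ≥0∞} (hle : ∀ i, h i ≤ f i + g i) :
    mN r h ≤ mN r f + mN r g := by
  simpa using mN_le_comb r 1 1 (h := h) (f := f) (g := g) (by simpa using hle)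

lemma mN_le_mul (a : ℝ≥0∞) {h f : ι → ℝ≥0∞} (hle : ∀ i, h i ≤ a * f i) :
    mN r h ≤ a * mN r f := by
  simpa using mN_le_comb r a 0 (h := h) (f := f) (g := f) (by simpa using hle)

lemma mN_le_sum {κ : Type*} (s : Finset κ) (f : κ → ι → ℝ≥0∞) {h : ι → ℝ≥0∞}
    (hle : ∀ i, h i ≤ ∑ j ∈ s, f j i) : mN r h ≤ ∑ j ∈ s, mN r (f j) := by
  classical
  induction s using Finset.induction_on generalizing h with
  | empty =>
    have : h = 0 := by ext i; simpa using hle i
    simp [this, mN_zero]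
  | insert j s hj ih =>
    rw [Finset.sum_insert hj]
    refine (mN_le_add r (f := f j) (g := fun i => ∑ j ∈ s, f j i) ?_).trans ?_
    · intro i
      simpa [Finset.sum_insert hj] using hle i
    · gcongr
      exact ih (fun i => le_rfl)

/-- The lower `ℓ₁` estimate, for families indexed by any finite type. -/
lemma sum_le_two_mN {κ : Type*} [Fintype κ] {A : κ → Set ι} (hA : Pairwise (Disjoint on A))
    (f : ι → ℝ≥0∞) (hf : ∀ l, ∀ i ∈ A l, f i ≠ 0 → Fintype.card κ ≤ r i) :
    ∑ l, mN r ((A l).indicator f) ≤ 2 * mN r f := by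
  let e := (Fintype.equivFin κ).symm
  let B : Fin (Fintype.card κ) → Set ι := fun l => A (e l) ∩ {i | Fintype.card κ ≤ r i}
  have hB : Adm r _ B := by
    refine ⟨?_, fun l i hi => hi.2⟩
    intro l l' hll
    exact (hA (e.injective.ne hll)).mono inter_subset_left inter_subset_left
  have h1 := half_sum_le_mN r hB f
  have h2 : ∑ l, mN r ((A l).indicator f) = ∑ l, mN r ((B l).indicator f) := by
    rw [← e.sum_comp]
    apply Finset.sum_congr rfl
    intro l _
    congr 1
    ext i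
    by_cases hi : i ∈ A (e l)
    · by_cases h0 : f i = 0
      · simp [indicator, h0]
      · rw [indicator_of_mem hi, indicator_of_mem (show i ∈ B l from ⟨hi, hf _ i hi h0⟩)]
    · rw [indicator_of_notMem hi, indicator_of_notMem (fun h : i ∈ B l => hi h.1)]
  rw [h2]
  calc ∑ l, mN r ((B l).indicator f) = 2 * (2⁻¹ * ∑ l, mN r ((B l).indicator f)) := by
        rw [← mul_assoc, ENNReal.mul_inv_cancel (by norm_num) (by norm_num), one_mul]
    _ ≤ 2 * mN r f := by gcongr

lemma add_sum_iSup_le {κ α : Type*} [Nonempty α] (s : Finset κ) (g : κ → α → ℝ≥0∞)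
    (B M : ℝ≥0∞) (h : ∀ c : κ → α, B + ∑ j ∈ s, g j (c j) ≤ M) :
    B + ∑ j ∈ s, ⨆ a, g j a ≤ M := by
  classical
  induction s using Finset.induction_on generalizing B with
  | empty => simpa using h (fun _ => Classical.arbitrary α)
  | insert j s hj ih =>
    rw [Finset.sum_insert hj, ← add_assoc, add_comm B, add_assoc, ENNReal.iSup_add]
    refine iSup_le fun a => ?_
    rw [← add_assoc]
    apply ih
    intro c
    have := h (update c j a)
    rw [Finset.sum_insert hj, update_self] at this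
    rw [add_comm (g j a), add_assoc]
    convert this using 3
    apply Finset.sum_congr rfl
    intro j' hj'
    rw [update_of_ne (ne_of_mem_of_not_mem hj' hj)]

/-- Splittings into at most `k` disjoint pieces. -/
def Split (ι : Type*) (k : ℕ) : Type _ :=
  {p : (n : ℕ) × (Fin n → Set ι) // p.1 ≤ k ∧ Pairwise (Disjoint on p.2)}

instance (k : ℕ) : Nonempty (Split ι k) :=
  ⟨⟨⟨0, Fin.elim0⟩, Nat.zero_le _, fun i => i.elim0⟩⟩

/-- The largest sum of norms over splittings into at most `k` pieces. -/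
noncomputable def mNk (k : ℕ) (v : ι → ℝ≥0∞) : ℝ≥0∞ :=
  ⨆ p : Split ι k, ∑ l, mN r ((p.1.2 l).indicator v)

lemma sum_le_mNk {k n : ℕ} (hn : n ≤ k) {F : Fin n → Set ι} (hF : Pairwise (Disjoint on F))
    (v : ι → ℝ≥0∞) : ∑ l, mN r ((F l).indicator v) ≤ mNk r k v :=
  le_iSup_of_le (f := fun p : Split ι k => ∑ l, mN r ((p.1.2 l).indicator v))
    ⟨⟨n, F⟩, hn, hF⟩ le_rfl

lemma sum_mNk_le {m n k : ℕ} (hn : n ≤ m) {E : Fin n → Set ι} (hE : Pairwise (Disjoint on E))
    (v : ι → ℝ≥0∞) (hv : ∀ i, v i ≠ 0 → m * k ≤ r i) :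
    ∑ j, mNk r k ((E j).indicator v) ≤ 2 * mN r v := by
  have := add_sum_iSup_le (α := Split ι k) Finset.univ
    (fun j p => ∑ l, mN r ((p.1.2 l).indicator ((E j).indicator v))) 0 (2 * mN r v) ?_
  · simpa [mNk] using this
  intro c
  rw [zero_add]
  let A : ((j : Fin n) × Fin (c j).1.1) → Set ι := fun q => (c q.1).1.2 q.2 ∩ E q.1
  have hA : Pairwise (Disjoint on A) := by
    rintro ⟨j, l⟩ ⟨j', l'⟩ hne
    by_cases hj : j = j'
    · subst hj
      have hl : l ≠ l' := fun h => hne (by rw [h])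
      exact ((c j).2.2 hl).mono inter_subset_left inter_subset_left
    · exact (hE hj).mono inter_subset_right inter_subset_right
  have hcard : Fintype.card ((j : Fin n) × Fin (c j).1.1) ≤ m * k := by
    rw [Fintype.card_sigma]
    calc ∑ j, Fintype.card (Fin (c j).1.1) ≤ ∑ _j : Fin n, k := by
          apply Finset.sum_le_sum
          intro j _
          simpa using (c j).2.1
      _ = n * k := by simp
      _ ≤ m * k := by gcongr
  have h1 := sum_le_two_mN r hA v (fun l i _ hi => hcard.trans (hv i hi))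
  rw [Fintype.sum_sigma] at h1
  simpa [A, indicator_indicator] using h1

lemma sum_blocks_le_one (b : ℕ → ℕ) (hb : Monotone b) (v : ℕ → ι → ℝ≥0∞)
    (hv : ∀ i x, v i x ≠ 0 → b i < r x ∧ r x ≤ b (i + 1)) (h1 : ∀ i, mN r (v i) ≤ 1)
    (R : ℕ) (x : ι) : ∑ i ∈ Finset.range R, v i x ≤ 1 := by
  by_cases h : ∃ i, v i x ≠ 0
  · obtain ⟨i, hi⟩ := h
    have key : ∀ j, j ≠ i → v j x = 0 := by
      intro j hj
      by_contra hj0
      have h2 := hv i x hi
      have h3 := hv j x hj0
      rcases lt_or_gt_of_ne hj with h4 | h4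
      · have := hb (show j + 1 ≤ i from h4)
        omega
      · have := hb (show i + 1 ≤ j from h4)
        omega
    calc ∑ j ∈ Finset.range R, v j x ≤ v i x := by
          by_cases hiR : i ∈ Finset.range R
          · rw [Finset.sum_eq_single_of_mem i hiR (fun j _ hj => key j hj)]
          · rw [Finset.sum_eq_zero (fun j hj => key j (fun h => hiR (h ▸ hj)))]
            exact zero_le
      _ ≤ 1 := (le_mN r _ x).trans (h1 i)
  · push Not at h
    simp [h]

lemma mN_blocks_le (b : ℕ → ℕ) (hb : Monotone b) (v : ℕ → ι → ℝ≥0∞)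
    (hv : ∀ i x, v i x ≠ 0 → b i < r x ∧ r x ≤ b (i + 1)) (h1 : ∀ i, mN r (v i) ≤ 1) (R : ℕ) :
    mN r (fun x => ∑ i ∈ Finset.range R, v i x) ≤
      1 + 2⁻¹ * ∑ i ∈ Finset.range R, mNk r (b i) (v i) := by
  classical
  apply mN_le
  · intro x
    exact (sum_blocks_le_one r b hb v hv h1 R x).trans le_self_add
  intro n F hF
  have hterm : ∀ i, 2⁻¹ * ∑ l, mN r ((F l).indicator (v i)) ≤
      (if b i < n ∧ n ≤ b (i + 1) then 1 else 0) + 2⁻¹ * mNk r (b i) (v i) := by
    intro i
    by_cases h2 : n ≤ b i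
    · refine le_trans ?_ le_add_self
      gcongr
      exact sum_le_mNk r h2 hF.1 _
    · by_cases h3 : n ≤ b (i + 1)
      · rw [if_pos ⟨by omega, h3⟩]
        exact ((half_sum_le_mN r hF _).trans (h1 i)).trans le_self_add
      · have : ∀ l, (F l).indicator (v i) = 0 := by
          intro l
          ext x
          by_cases hx : x ∈ F l
          · rw [indicator_of_mem hx]
            by_contra h0
            have := (hv i x h0).2
            have := hF.2 l x hx
            omega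
          · simp [hx]
        simp [this, mN_zero]
  have hone : ∑ i ∈ Finset.range R, (if b i < n ∧ n ≤ b (i + 1) then (1 : ℝ≥0∞) else 0) ≤ 1 := by
    rw [Finset.sum_boole]
    have : ((Finset.range R).filter (fun i => b i < n ∧ n ≤ b (i + 1))).card ≤ 1 := by
      rw [Finset.card_le_one]
      intro i hi j hj
      rw [Finset.mem_filter] at hi hj
      by_contra hne
      rcases lt_or_gt_of_ne hne with h4 | h4
      · have := hb (show i + 1 ≤ j from h4)
        omega
      · have := hb (show j + 1 ≤ i from h4)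
        omega
    exact_mod_cast this
  calc 2⁻¹ * ∑ l, mN r ((F l).indicator fun x => ∑ i ∈ Finset.range R, v i x)
      ≤ 2⁻¹ * ∑ l, ∑ i ∈ Finset.range R, mN r ((F l).indicator (v i)) := by
        gcongr with l
        apply mN_le_sum
        intro x
        by_cases hx : x ∈ F l
        · simp [hx]
        · simp [hx]
    _ = ∑ i ∈ Finset.range R, 2⁻¹ * ∑ l, mN r ((F l).indicator (v i)) := by
        rw [Finset.sum_comm, Finset.mul_sum]
    _ ≤ ∑ i ∈ Finset.range R, ((if b i < n ∧ n ≤ b (i + 1) then 1 else 0) +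
          2⁻¹ * mNk r (b i) (v i)) := Finset.sum_le_sum fun i _ => hterm i
    _ ≤ 1 + 2⁻¹ * ∑ i ∈ Finset.range R, mNk r (b i) (v i) := by
        rw [Finset.sum_add_distrib, ← Finset.mul_sum]
        gcongr

lemma sum_split_blocks_le (b : ℕ → ℕ) (hb : Monotone b) (m : ℕ) (u : ℕ → ι → ℝ≥0∞)
    (hu : ∀ i x, u i x ≠ 0 → b i < r x ∧ r x ≤ b (i + 1))
    (hu' : ∀ i x, u i x ≠ 0 → m * b i ≤ r x) (h1 : ∀ i, mN r (u i) ≤ 1) (R : ℕ)
    {n : ℕ} (hn : n ≤ m) {E : Fin n → Set ι} (hE : Pairwise (Disjoint on E)) :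
    ∑ j, mN r ((E j).indicator fun x => ∑ i ∈ Finset.range R, u i x) ≤ m + R := by
  have hj : ∀ j, mN r ((E j).indicator fun x => ∑ i ∈ Finset.range R, u i x) ≤
      1 + 2⁻¹ * ∑ i ∈ Finset.range R, mNk r (b i) ((E j).indicator (u i)) := by
    intro j
    refine le_trans (mN_mono r ?_) (mN_blocks_le r b hb (fun i => (E j).indicator (u i)) ?_ ?_ R)
    · intro x
      by_cases hx : x ∈ E j
      · simp [hx]
      · simp [hx]
    · intro i x hx
      apply hu
      intro h0
      apply hx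
      simp [indicator, h0]
    · intro i
      exact (mN_mono r (fun x => indicator_le_self _ _ x)).trans (h1 i)
  calc ∑ j, mN r ((E j).indicator fun x => ∑ i ∈ Finset.range R, u i x)
      ≤ ∑ j, (1 + 2⁻¹ * ∑ i ∈ Finset.range R, mNk r (b i) ((E j).indicator (u i))) :=
        Finset.sum_le_sum fun j _ => hj j
    _ = n + ∑ i ∈ Finset.range R, 2⁻¹ * ∑ j, mNk r (b i) ((E j).indicator (u i)) := by
        rw [Finset.sum_add_distrib, ← Finset.mul_sum, Finset.sum_comm, Finset.mul_sum]
        simp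
    _ ≤ m + ∑ _i ∈ Finset.range R, (1 : ℝ≥0∞) := by
        gcongr with i
        calc 2⁻¹ * ∑ j, mNk r (b i) ((E j).indicator (u i)) ≤ 2⁻¹ * (2 * mN r (u i)) := by
              gcongr
              exact sum_mNk_le r hn hE _ (hu' i)
          _ = mN r (u i) := by
              rw [← mul_assoc, ENNReal.inv_mul_cancel (by norm_num) (by norm_num), one_mul]
          _ ≤ 1 := h1 i
    _ = m + R := by simp

/-- The `7/4` estimate. -/
lemma mN_seven_quarters (b : ℕ → ℕ) (hb : Monotone b) (m : ℕ)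
    (w : ι → ℝ≥0∞) (hw : ∀ x, w x ≠ 0 → r x ≤ m) (hw1 : mN r w ≤ 1) (u : ℕ → ι → ℝ≥0∞)
    (hu : ∀ i x, u i x ≠ 0 → b i < r x ∧ r x ≤ b (i + 1))
    (hu' : ∀ i x, u i x ≠ 0 → m * b i ≤ r x) (h1 : ∀ i, mN r (u i) ≤ 1) (R : ℕ) (hR : 2 ≤ R) :
    mN r (fun x => R * w x + ∑ i ∈ Finset.range R, u i x) ≤ R + 2⁻¹ * (m + R) := by
  apply mN_le
  · intro x
    have h2 : (1 : ℝ≥0∞) ≤ 2⁻¹ * (m + R) := by
      calc (1 : ℝ≥0∞) = 2⁻¹ * 2 := (ENNReal.inv_mul_cancel (by norm_num) (by norm_num)).symm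
        _ ≤ 2⁻¹ * (m + R) := by
          gcongr
          exact le_trans (by exact_mod_cast hR) le_add_self
    gcongr
    · calc (R : ℝ≥0∞) * w x ≤ R * 1 := by
            gcongr
            exact (le_mN r _ x).trans hw1
        _ = R := mul_one _
    · exact (sum_blocks_le_one r b hb u hu h1 R x).trans h2
  intro n F hF
  set s : ι → ℝ≥0∞ := fun x => ∑ i ∈ Finset.range R, u i x with hs
  have hsplit : 2⁻¹ * ∑ l, mN r ((F l).indicator fun x => R * w x + s x) ≤
      R * (2⁻¹ * ∑ l, mN r ((F l).indicator w)) + 2⁻¹ * ∑ l, mN r ((F l).indicator s) := by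
    calc 2⁻¹ * ∑ l, mN r ((F l).indicator fun x => R * w x + s x)
        ≤ 2⁻¹ * ∑ l, (R * mN r ((F l).indicator w) + 1 * mN r ((F l).indicator s)) := by
          gcongr with l
          apply mN_le_comb
          intro x
          by_cases hx : x ∈ F l
          · simp [hx]
          · simp [hx]
      _ = _ := by
          rw [Finset.sum_add_distrib, ← Finset.mul_sum, ← Finset.mul_sum]
          ring
  refine hsplit.trans ?_
  by_cases hn : n ≤ m
  · gcongr
    · calc (R : ℝ≥0∞) * (2⁻¹ * ∑ l, mN r ((F l).indicator w)) ≤ R * 1 := by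
            gcongr
            exact (half_sum_le_mN r hF w).trans hw1
        _ = R := mul_one _
    · exact sum_split_blocks_le r b hb m u hu hu' h1 R hn hF.1
  · have : ∀ l, (F l).indicator w = 0 := by
      intro l
      ext x
      by_cases hx : x ∈ F l
      · rw [indicator_of_mem hx]
        by_contra h0
        have := hw x h0
        have := hF.2 l x hx
        omega
      · simp [hx]
    simp only [this, mN_zero, Finset.sum_const_zero, mul_zero, zero_add]
    refine (half_sum_le_mN r hF s).trans (le_trans ?_ le_self_add)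
    calc mN r s ≤ ∑ i ∈ Finset.range R, mN r (u i) := mN_le_sum r _ u (fun x => le_rfl)
      _ ≤ ∑ _i ∈ Finset.range R, (1 : ℝ≥0∞) := Finset.sum_le_sum fun i _ => h1 i
      _ = R := by simp

end Pool.Agent.MP_6dccca_an
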