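import Pool.Agent.MP_6dccca_an.Abstract
import Pool.Agent.MP_6dccca_an.Growth
import Pool.Agent.MP_6dccca_an.Embed

/-! The space `T_M*(T_M*)` built from the modified Tsirelson space. -/

open scoped ENNReal NNReal
open Set Function Filter

namespace Pool.Agent.MP_6dccca_an

/-- The dual of the modified Tsirelson space as a function norm. -/
noncomputable def DN : FnNorm ℕ where
  ρ := mD id
  comb a b _ _ _ h := mD_le_comb id a b h
  le := le_mD id
  le_tsum := mD_le_tsum id
  fatou _ _ v hv hg hM := mD_le_of_directed id v hv hg hM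

/-- The sum space. -/
noncomputable def YN : FnNorm (ℕ × ℕ) := DN.sum DN

/-- Squares. -/
def sq (n : ℕ) : Finset (ℕ × ℕ) := Finset.range n ×ˢ Finset.range n

lemma mem_sq {n : ℕ} {a : ℕ × ℕ} : a ∈ sq n ↔ a.1 < n ∧ a.2 < n := by simp [sq]

lemma sq_mono : Monotone sq := by
  intro n m h a ha
  rw [mem_sq] at *
  omega

lemma sq_exhaust (a : ℕ × ℕ) : ∃ n, a ∈ sq n :=
  ⟨a.1 + a.2 + 1, by rw [mem_sq]; omega⟩

lemma YN_rho (f : ℕ × ℕ → ℝ≥0∞) : YN.ρ f = mD id (fun j => mD id (fun l => f (j, l))) := rfl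

lemma mD_head_le (n : ℕ) (η : ℝ≥0∞) : mD id ({j : ℕ | j < n}.indicator fun _ => η) ≤ n * η := by
  refine (mD_le_tsum _ _).trans ?_
  rw [tsum_eq_sum (s := Finset.range n) (fun j hj => indicator_of_notMem (by simpa using hj) _)]
  calc ∑ j ∈ Finset.range n, {j : ℕ | j < n}.indicator (fun _ => η) j
      ≤ ∑ _j ∈ Finset.range n, η := Finset.sum_le_sum fun j _ => indicator_le_self _ _ j
    _ = n * η := by simp

lemma YN_tails : YN.TailsVanish sq := by
  intro f hf ε hε
  rw [YN_rho] at hf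
  set u : ℕ → ℝ≥0∞ := fun j => mD id (fun l => f (j, l)) with hu
  have hε2 : 0 < ε / 2 := ENNReal.half_pos hε.ne'
  obtain ⟨n₁, hn₁⟩ := mD_tail id hf hε2
  obtain ⟨η, hη0, hη⟩ := ENNReal.exists_nnreal_pos_mul_lt (a := n₁) (b := ε / 2)
    (ENNReal.natCast_ne_top _) hε2.ne'
  have hj : ∀ j, ∃ n, mD id ({l | n ≤ id l}.indicator fun l => f (j, l)) ≤ η := fun j =>
    mD_tail id (ne_top_of_le_ne_top hf (le_mD id u j)) (by exact_mod_cast hη0)
  choose m hm using hj
  refine ⟨max n₁ ((Finset.range n₁).sup m), ?_⟩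
  rw [YN_rho]
  refine (DN.le_add (f := {j | n₁ ≤ id j}.indicator u)
    (g := {j : ℕ | j < n₁}.indicator fun _ => (η : ℝ≥0∞)) fun j => ?_).trans ?_
  · by_cases h : j < n₁
    · rw [indicator_of_mem (show j ∈ {j : ℕ | j < n₁} from h)]
      refine le_trans (le_trans (mD_mono id fun l => ?_) (hm j)) le_add_self
      by_cases h2 : m j ≤ l
      · rw [indicator_of_mem (show l ∈ {l | m j ≤ id l} from h2)]
        exact indicator_le_self _ _ _
      · rw [indicator_of_notMem]
        · exact zero_le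
        · have h3 : m j ≤ (Finset.range n₁).sup m := Finset.le_sup (f := m) (Finset.mem_range.2 h)
          simp only [mem_compl_iff, Finset.mem_coe, mem_sq, not_not]
          omega
    · rw [indicator_of_mem (show j ∈ {j | n₁ ≤ id j} from not_lt.1 h)]
      exact le_trans (mD_mono id fun l => indicator_le_self _ _ _) le_self_add
  · rw [← ENNReal.add_halves ε]
    gcongr
    · exact hn₁
    · refine (mD_head_le n₁ η).trans ?_
      rw [mul_comm]
      exact hη.le

lemma le_add_inv_of_floor_eq {n : ℕ} (hn : 0 < n) {a b : ℝ≥0∞} (ha : a ≠ ∞) (hb : b ≠ ∞)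
    (h : ⌊n * a.toReal⌋₊ = ⌊n * b.toReal⌋₊) : a ≤ b + (n : ℝ≥0∞)⁻¹ := by
  have hn' : (0 : ℝ) < n := by exact_mod_cast hn
  have h1 := Nat.lt_floor_add_one (n * a.toReal)
  have h2 := Nat.floor_le (show 0 ≤ n * b.toReal by positivity)
  rw [h] at h1
  have h3 : a.toReal ≤ b.toReal + (n : ℝ)⁻¹ := by
    have : (n : ℝ) * a.toReal ≤ n * (b.toReal + (n : ℝ)⁻¹) := by
      rw [mul_add, mul_inv_cancel₀ hn'.ne']
      linarith
    exact le_of_mul_le_mul_left this hn'
  have hinv : (n : ℝ≥0∞)⁻¹ ≠ ∞ := ENNReal.inv_ne_top.2 (by exact_mod_cast hn.ne')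
  rw [← ENNReal.toReal_le_toReal ha (ENNReal.add_ne_top.2 ⟨hb, hinv⟩), ENNReal.toReal_add hb hinv]
  simpa using h3

lemma YN_ring : YN.RingEstimate sq 12 := by
  classical
  intro n
  refine ⟨(n + 1) ^ n * n, fun s hs hn y hy hsupp => ?_⟩
  let u : Fin ((n + 1) ^ n * n) → ℕ → ℝ≥0∞ := fun i j => mD id (fun l => y i (j, l))
  have hu : ∀ i, mD id (u i) ≤ 1 := hy
  have hu1 : ∀ i j, u i j ≤ 1 := fun i j => (le_mD id (u i) j).trans (hu i)
  have hut : ∀ i j, u i j ≠ ∞ := fun i j => ne_top_of_le_ne_top ENNReal.one_ne_top (hu1 i j)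
  let c : Fin ((n + 1) ^ n * n) → Fin n → Fin (n + 1) := fun i j =>
    ⟨⌊n * (u i j).toReal⌋₊, by
      have h1 : (u i j).toReal ≤ 1 := by
        simpa using ENNReal.toReal_mono ENNReal.one_ne_top (hu1 i j)
      have h2 : n * (u i j).toReal ≤ (n : ℝ) := mul_le_of_le_one_right (Nat.cast_nonneg n) h1
      have := Nat.floor_le_of_le h2
      omega⟩
  obtain ⟨b, hb⟩ := Fintype.exists_le_card_fiber_of_mul_le_card c (n := n) (by simp)
  obtain ⟨T, hT, hTc⟩ := Finset.exists_subset_card_eq hb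
  let σ := T.orderEmbOfFin hTc
  have hσ : ∀ l, c (σ l) = b := fun l =>
    (Finset.mem_filter.1 (hT (T.orderEmbOfFin_mem hTc l))).2
  refine ⟨σ, ?_⟩
  rcases Nat.eq_zero_or_pos n with h0 | h0
  · subst h0
    have : (fun a => ∑ l : Fin 0, y (σ l) a) = 0 := by ext a; simp
    rw [this, YN.zero]
    exact zero_le
  have : Nonempty (Fin n) := ⟨⟨0, h0⟩⟩
  have hdisj : ∀ {l l' : Fin n} {a : ℕ × ℕ}, y (σ l) a ≠ 0 → y (σ l') a ≠ 0 → l = l' := by
    intro l l' a h1 h2
    by_contra hne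
    rcases lt_or_gt_of_ne hne with h | h
    · have h3 : (σ l : ℕ) + 1 ≤ σ l' := σ.strictMono h
      exact (hsupp _ a h2).2 (sq_mono (hs h3) (hsupp _ a h1).1)
    · have h3 : (σ l' : ℕ) + 1 ≤ σ l := σ.strictMono h
      exact (hsupp _ a h1).2 (sq_mono (hs h3) (hsupp _ a h2).1)
  let W : ℕ → ℝ≥0∞ := fun j => ⨆ l, u (σ l) j
  have hW : ∀ l j, u (σ l) j ≤ W j := fun l j => le_iSup (fun l => u (σ l) j) l
  have hinner : ∀ j, mD id (fun t => ∑ l, y (σ l) (j, t)) ≤ 3 * W j := by
    intro j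
    let A : Fin n → Set ℕ := fun l => {t | n ≤ t ∧ y (σ l) (j, t) ≠ 0}
    have hA : Pairwise (Disjoint on A) := by
      intro l l' hne
      rw [Function.onFun, Set.disjoint_left]
      exact fun t h1 h2 => hne (hdisj h1.2 h2.2)
    have htail := mD_le_two_mul id hA (fun l t ht => by simpa using ht.1)
      (g := fun t => ∑ l, (A l).indicator (fun t => y (σ l) (j, t)) t)
      (fun l t => y (σ l) (j, t)) (fun t => le_rfl) (M := W j) (fun l => hW l j)
    have hhead : ∃ l₀, ∀ l t, t < n → y (σ l) (j, t) ≠ 0 → l = l₀ := by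
      by_cases hex : ∃ l t, t < n ∧ y (σ l) (j, t) ≠ 0
      · obtain ⟨l₀, t₀, ht₀, h₀⟩ := hex
        refine ⟨l₀, fun l t ht h => ?_⟩
        have h1 := hsupp _ _ h₀
        have h2 := hsupp _ _ h
        simp only [mem_sq] at h1 h2
        have h3 : s 0 ≤ s (σ l) := hs (Nat.zero_le _)
        have h4 : s 0 ≤ s (σ l₀) := hs (Nat.zero_le _)
        by_contra hne
        rcases lt_or_gt_of_ne hne with h5 | h5
        · have h6 : (σ l : ℕ) + 1 ≤ σ l₀ := σ.strictMono h5
          have := hs h6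
          omega
        · have h6 : (σ l₀ : ℕ) + 1 ≤ σ l := σ.strictMono h5
          have := hs h6
          omega
      · push Not at hex
        exact ⟨Classical.arbitrary _, fun l t ht h => absurd (hex l t ht) h⟩
    obtain ⟨l₀, hl₀⟩ := hhead
    refine (DN.le_add (f := fun t => y (σ l₀) (j, t))
      (g := fun t => ∑ l, (A l).indicator (fun t => y (σ l) (j, t)) t) fun t => ?_).trans ?_
    · by_cases ht : t < n
      · refine le_trans ?_ le_self_add
        rw [Finset.sum_eq_single l₀]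
        · intro l _ hl
          by_contra h
          exact hl (hl₀ l t ht h)
        · simp
      · refine le_trans (Finset.sum_le_sum fun l _ => ?_) le_add_self
        by_cases h : y (σ l) (j, t) = 0
        · simp [h]
        · rw [indicator_of_mem (show t ∈ A l from ⟨not_lt.1 ht, h⟩)]
    · calc _ ≤ W j + 2 * W j := add_le_add (hW l₀ j) htail
        _ = 3 * W j := by ring
  have houter : mD id W ≤ 4 := by
    have hmax : ∀ j, ∃ l, W j ≤ u (σ l) j := by
      intro j
      obtain ⟨l, hl⟩ := Finite.exists_max (fun l => u (σ l) j)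
      exact ⟨l, iSup_le hl⟩
    choose L hL using hmax
    let A : Fin n → Set ℕ := fun l => {j | n ≤ j ∧ L j = l}
    have hA : Pairwise (Disjoint on A) := by
      intro l l' hne
      rw [Function.onFun, Set.disjoint_left]
      exact fun t h1 h2 => hne (h1.2.symm.trans h2.2)
    have htail := mD_le_two_mul id hA (fun l t ht => by simpa using ht.1)
      (g := fun t => ∑ l, (A l).indicator (u (σ l)) t)
      (fun l => u (σ l)) (fun t => le_rfl) (M := 1) (fun l => hu _)
    let l₀ : Fin n := ⟨0, h0⟩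
    have hhead : mD id (fun j => u (σ l₀) j +
        {j : ℕ | j < n}.indicator (fun _ => (n : ℝ≥0∞)⁻¹) j) ≤ 2 := by
      refine (DN.le_add (f := u (σ l₀))
        (g := {j : ℕ | j < n}.indicator (fun _ => (n : ℝ≥0∞)⁻¹)) fun j => le_rfl).trans ?_
      rw [← one_add_one_eq_two]
      refine add_le_add (hu _) ((mD_head_le n _).trans ?_)
      exact ENNReal.mul_inv_le_one _
    refine (DN.le_add (f := fun j => u (σ l₀) j +
        {j : ℕ | j < n}.indicator (fun _ => (n : ℝ≥0∞)⁻¹) j)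
      (g := fun t => ∑ l, (A l).indicator (u (σ l)) t) fun j => ?_).trans ?_
    · by_cases hj : j < n
      · refine le_trans ((hL j).trans ?_) le_self_add
        rw [indicator_of_mem (show j ∈ {j : ℕ | j < n} from hj)]
        refine le_add_inv_of_floor_eq h0 (hut _ _) (hut _ _) ?_
        have := congrFun ((hσ (L j)).trans (hσ l₀).symm) ⟨j, hj⟩
        exact congrArg Fin.val this
      · refine le_trans ((hL j).trans ?_) le_add_self
        refine le_trans ?_ (Finset.single_le_sum (f := fun l => (A l).indicator (u (σ l)) j)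
          (fun _ _ => zero_le) (Finset.mem_univ (L j)))
        rw [indicator_of_mem (show j ∈ A (L j) from ⟨not_lt.1 hj, rfl⟩)]
    · calc _ ≤ (2 : ℝ≥0∞) + 2 * 1 := add_le_add hhead htail
        _ = 4 := by norm_num
  rw [YN_rho]
  refine (DN.le_mul 3 (f := W) hinner).trans ?_
  calc (3 : ℝ≥0∞) * mD id W ≤ 3 * 4 := by gcongr
    _ = ((12 : ℝ≥0) : ℝ≥0∞) := by norm_num

lemma norm_sum_unit_le (S : Finset ℕ) (a : ℕ → ℝ) (M : ℝ) (hM : 0 ≤ M)
    (hS : ∀ i ∈ S, S.card ≤ i) (ha : ∀ i ∈ S, |a i| ≤ M) :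
    ‖∑ i ∈ S, a i • DN.unit i‖ ≤ 2 * M := by
  classical
  refine FnNorm.norm_le_of_rho_le (by positivity) ?_
  rw [ENNReal.ofReal_mul (by norm_num), ENNReal.ofReal_ofNat]
  refine mD_le_two_mul id (κ := S) (A := fun i => {i.1}) ?_ ?_
    (fun i => Pi.single i.1 (ENNReal.ofReal M)) ?_ ?_
  · intro i j hij
    simpa [Function.onFun] using fun h => hij (Subtype.ext h)
  · intro l i hi
    rw [mem_singleton_iff.1 hi]
    simpa using hS _ l.2
  · intro i
    rw [FnNorm.fn_sum]
    by_cases hi : i ∈ S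
    · refine le_trans ?_ (Finset.single_le_sum
        (f := fun l : S => ({l.1} : Set ℕ).indicator (Pi.single l.1 (ENNReal.ofReal M)) i)
        (fun _ _ => zero_le) (Finset.mem_univ ⟨i, hi⟩))
      simp only [FnNorm.fn_smul, FnNorm.fn_unit, mul_ite, mul_one, mul_zero, Finset.sum_ite_eq, hi,
        if_true, mem_singleton_iff, indicator_of_mem, Pi.single_eq_same]
      rw [← ofReal_norm]
      exact ENNReal.ofReal_le_ofReal (ha i hi)
    · simp [hi]
  · intro l
    refine (mD_le_tsum _ _).trans ?_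
    rw [tsum_eq_single l.1 (fun j hj => Pi.single_eq_of_ne hj _)]
    simp

theorem exists_space :
    ∃ (Y : Type) (_ : NormedAddCommGroup Y) (_ : NormedSpace ℝ Y),
      CompleteSpace Y ∧ ¬ FiniteDimensional ℝ Y ∧
      Function.Surjective (NormedSpace.inclusionInDoubleDual ℝ Y) ∧
      IsAsymptoticSubsequentialC0 Y ∧
      ∃ ρ ω : ℝ≥0 → ℝ≥0, Monotone ρ ∧ Monotone ω ∧ Filter.Tendsto ρ Filter.atTop Filter.atTop ∧
        ∀ k : ℕ, ∃ f : (Fin k ↪o ℕ) → Y, ∀ m n : Fin k ↪o ℕ,
          (ρ (hammingDist (m : Fin k → ℕ) n) : ℝ) ≤ ‖f m - f n‖ ∧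
          ‖f m - f n‖ ≤ (ω (hammingDist (m : Fin k → ℕ) n) : ℝ) := by
  have hrefl := FnNorm.reflexive sq_mono sq_exhaust YN_tails YN_ring
  refine ⟨YN.Space, inferInstance, inferInstance, ?_, FnNorm.not_finiteDimensional, hrefl,
    FnNorm.asymptotic sq_mono YN_tails YN_ring, lowerFn id, fun t => 12 * t,
    lowerFn_mono _ Set.finite_lt_nat, fun s t h => by dsimp only; gcongr,
    lowerFn_tendsto _ Set.finite_lt_nat (fun n => ⟨n, le_rfl⟩), fun k => ?_⟩
  · exact (LinearIsometryEquiv.ofSurjective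
      (NormedSpace.inclusionInDoubleDualLi (E := YN.Space) ℝ) hrefl).toIsometryEquiv.completeSpace
  obtain ⟨g, hg0, hgU, hgL⟩ := exists_inner_maps DN.unit (fun i => (DN.crd i).toLinearMap)
    (fun i x => FnNorm.abs_fn_le x i) (fun i => by simp) (fun i j hij => by simp [hij])
    norm_sum_unit_le k
  have hρ : ∀ z : ℕ → DN.Space, YN.ρ (fun a => ‖(z a.1).fn a.2‖ₑ) = mD id (fun j => ‖z j‖ₑ) := by
    intro z
    rw [YN_rho]
    congr 1
    ext j
    rw [FnNorm.enorm_def]
    rfl
  have hfin : ∀ m, YN.ρ (fun a => ‖(g a.1 m).fn a.2‖ₑ) ≠ ∞ := by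
    intro m
    rw [hρ (fun j => g j m)]
    exact DN.ne_top_of_finset (Finset.range k)
      (fun j hj => by simp [hg0 j (by simpa using hj)]) (fun _ => enorm_ne_top)
  refine ⟨fun m => YN.mkSp (fun a => (g a.1 m).fn a.2) (hfin m), fun m n => ?_⟩
  have hdiff : ‖YN.mkSp (fun a => (g a.1 m).fn a.2) (hfin m) -
      YN.mkSp (fun a => (g a.1 n).fn a.2) (hfin n)‖ₑ = mD id (fun j => ‖g j m - g j n‖ₑ) := by
    rw [FnNorm.enorm_def, ← hρ (fun j => g j m - g j n)]
    rfl
  constructor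
  · rw [lowerFn_natCast, ← toReal_enorm]
    refine ENNReal.toReal_mono enorm_ne_top ?_
    rw [hdiff]
    refine mD_mono id fun j => ?_
    by_cases h : j < Nat.log 2 (hammingDist (m : Fin k → ℕ) n)
    · rw [indicator_of_mem (show j ∈ {i | id i < Nat.log 2 (hammingDist (m : Fin k → ℕ) n)}
        from h), ← ofReal_norm]
      exact ENNReal.one_le_ofReal.2 (hgL m n j h)
    · rw [indicator_of_notMem (show j ∉ {i | id i < Nat.log 2 (hammingDist (m : Fin k → ℕ) n)}
        from h)]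
      exact zero_le
  · refine le_trans ?_ ((hgU m n).trans (le_of_eq (by push_cast; rfl)))
    rw [← toReal_enorm, hdiff]
    refine ENNReal.toReal_le_of_le_ofReal (Finset.sum_nonneg fun _ _ => norm_nonneg _) ?_
    refine (mD_le_tsum _ _).trans ?_
    rw [tsum_eq_sum (s := Finset.range k) (fun j hj => by simp [hg0 j (by simpa using hj)]),
      ENNReal.ofReal_sum_of_nonneg (fun _ _ => norm_nonneg _)]
    simp

end Pool.Agent.MP_6dccca_an
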