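import Pool.Agent.MP_6dccca_an.TsSpace
import Pool.Agent.MP_6dccca_an.Growth
import Pool.Agent.MP_6dccca_an.Embed

open scoped ENNReal NNReal
open Set Function Filter

namespace Pool.Agent.MP_6dccca_an

lemma dual_norm_le (φ : TsirelsonDual) {M : ℝ} (hM : 0 ≤ M)
    (h : ∀ x : C00, |φ x| ≤ M * ‖x‖) : ‖φ‖ ≤ M := by
  refine φ.opNorm_le_bound hM fun x => ?_
  induction x using UniformSpace.Completion.induction_on with
  | hp => exact isClosed_le (by fun_prop) (by fun_prop)
  | ih x => simpa [UniformSpace.Completion.norm_coe] using h x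

lemma eStar_coe (j : ℕ+) (x : C00) : eStar j x = x.toF j := by
  unfold eStar
  rw [ContinuousLinearMap.fromCompletion_apply_coe]
  rfl

lemma abs_apply_le (j : ℕ+) (x : C00) : |x.toF j| ≤ ‖x‖ := by
  have := norm_lapply_le j x
  rw [one_mul] at this
  exact this

lemma norm_eStar_le (j : ℕ+) : ‖eStar j‖ ≤ 1 :=
  dual_norm_le _ zero_le_one fun x => by rw [eStar_coe, one_mul]; exact abs_apply_le j x

/-- View a finitely supported function as an element of `C00`. -/
def C00.ofF (x : ℕ+ →₀ ℝ) : C00 := x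

lemma norm_ofF_le {x : ℕ+ →₀ ℝ} {f : ℕ+ → ℝ≥0∞} (h : ∀ i, ‖x i‖ₑ ≤ f i)
    (hf : mN (fun i : ℕ+ => (i : ℕ)) f ≤ 1) : ‖C00.ofF x‖ ≤ 1 := by
  rw [C00.norm_def]
  have : tsE x ≤ 1 := (tsE_le_mN x).trans ((mN_mono _ h).trans hf)
  exact ENNReal.toReal_mono ENNReal.one_ne_top this

lemma norm_single_le (i : ℕ+) : ‖C00.ofF (Finsupp.single i 1)‖ ≤ 1 := by
  classical
  refine norm_ofF_le (f := Pi.single i 1) ?_ ?_
  · intro j
    by_cases h : j = i
    · subst h; simp
    · simp [h]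
  · refine (mN_le_tsum _ _).trans ?_
    rw [tsum_eq_single i (fun j hj => Pi.single_eq_of_ne hj _)]
    simp

/-- Evaluation of a functional at a unit vector. -/
noncomputable def evT (i : ℕ+) : TsirelsonDual →ₗ[ℝ] ℝ where
  toFun φ := φ (C00.ofF (Finsupp.single i 1))
  map_add' _ _ := rfl
  map_smul' _ _ := rfl

lemma abs_apply_coe_le (φ : TsirelsonDual) {x : C00} (hx : ‖x‖ ≤ 1) : |φ x| ≤ ‖φ‖ := by
  refine (φ.le_opNorm x).trans ?_
  rw [UniformSpace.Completion.norm_coe]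
  exact mul_le_of_le_one_right (norm_nonneg _) hx

lemma sum_abs_le_two_norm (x : C00) (S : Finset ℕ+) (hS : ∀ i ∈ S, S.card ≤ (i : ℕ)) :
    ∑ i ∈ S, |x.toF i| ≤ 2 * ‖x‖ := by
  have := ENNReal.toReal_mono (ENNReal.mul_ne_top (by norm_num) (tsE_ne_top _))
    (sum_le_two_tsE x.toF S hS)
  rw [ENNReal.toReal_sum (fun _ _ => enorm_ne_top), ENNReal.toReal_mul] at this
  simpa [C00.norm_def] using this

lemma norm_sum_eStar_le (S : Finset ℕ) (a : ℕ → ℝ) (M : ℝ) (hM : 0 ≤ M)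
    (hS : ∀ i ∈ S, S.card ≤ i) (ha : ∀ i ∈ S, |a i| ≤ M) :
    ‖∑ i ∈ S, a i • eStar i.succPNat‖ ≤ 2 * M := by
  refine dual_norm_le _ (by positivity) fun x => ?_
  have h1 := sum_abs_le_two_norm x (S.image Nat.succPNat) (by
    intro i hi
    obtain ⟨j, hj, rfl⟩ := Finset.mem_image.1 hi
    rw [Finset.card_image_of_injective _ Nat.succPNat_injective, Nat.succPNat_coe]
    exact (hS j hj).trans (Nat.le_succ j))
  rw [Finset.sum_image (fun _ _ _ _ h => Nat.succPNat_injective h)] at h1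
  rw [_root_.sum_apply]
  refine (Finset.abs_sum_le_sum_abs _ _).trans ?_
  calc ∑ i ∈ S, |(a i • eStar i.succPNat) x| ≤ ∑ i ∈ S, M * |x.toF i.succPNat| := by
        refine Finset.sum_le_sum fun i hi => ?_
        rw [_root_.smul_apply, eStar_coe, smul_eq_mul, abs_mul]
        gcongr
        exact ha i hi
    _ = M * ∑ i ∈ S, |x.toF i.succPNat| := (Finset.mul_sum _ _ _).symm
    _ ≤ M * (2 * ‖x‖) := by gcongr
    _ = 2 * M * ‖x‖ := by ring

lemma finite_lt_pnat (J : ℕ) : {i : ℕ+ | (i : ℕ) < J}.Finite :=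
  (Set.finite_lt_nat J).preimage (PNat.coe_injective.injOn)

lemma growth_le_norm (S : Finset ℕ+) (u : ℕ+ → ℝ) (hu : ∀ i, 0 ≤ u i) (J : ℕ)
    (hJ : ∀ i : ℕ+, (i : ℕ) < J → i ∈ S ∧ 1 ≤ u i) :
    (growth (fun i : ℕ+ => (i : ℕ)) J).toReal ≤ ‖∑ i ∈ S, u i • eStar i‖ := by
  classical
  refine ENNReal.toReal_le_of_le_ofReal (norm_nonneg _) (mD_le _ fun f hf => ?_)
  have hft : ∀ i, f i ≠ ∞ := fun i =>
    ne_top_of_le_ne_top ENNReal.one_ne_top ((le_mN _ f i).trans hf)
  let x : ℕ+ →₀ ℝ := Finsupp.onFinset S (fun i => if i ∈ S then (f i).toReal else 0)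
    (fun i hi => by by_contra h; simp [h] at hi)
  have hx : ‖C00.ofF x‖ ≤ 1 := by
    refine norm_ofF_le (f := f) (fun i => ?_) hf
    simp only [x, Finsupp.onFinset_apply]
    split_ifs
    · rw [Real.enorm_eq_ofReal ENNReal.toReal_nonneg, ENNReal.ofReal_toReal (hft i)]
    · simp
  have h1 := abs_apply_coe_le (∑ i ∈ S, u i • eStar i) hx
  have h2 : (∑ i ∈ S, u i • eStar i) (C00.ofF x) = ∑ i ∈ S, u i * (f i).toReal := by
    rw [_root_.sum_apply]
    refine Finset.sum_congr rfl fun i hi => ?_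
    rw [_root_.smul_apply, eStar_coe, smul_eq_mul]
    congr 1
    change x i = _
    simp [x, hi]
  rw [h2] at h1
  refine le_trans ?_ (ENNReal.ofReal_le_ofReal ((le_abs_self _).trans h1))
  rw [tsum_eq_sum (s := S), ENNReal.ofReal_sum_of_nonneg
    (fun i _ => mul_nonneg (hu i) ENNReal.toReal_nonneg)]
  · refine Finset.sum_le_sum fun i _ => ?_
    rw [ENNReal.ofReal_mul (hu i), ENNReal.ofReal_toReal (hft i), mul_comm]
    gcongr
    by_cases h : (i : ℕ) < J
    · rw [indicator_of_mem (show i ∈ {i : ℕ+ | (i : ℕ) < J} from h)]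
      simpa using (hJ i h).2
    · rw [indicator_of_notMem (show i ∉ {i : ℕ+ | (i : ℕ) < J} from h)]
      exact zero_le
  · intro i hi
    rw [indicator_of_notMem (show i ∉ {i : ℕ+ | (i : ℕ) < J} from fun h => hi (hJ i h).1)]
    simp

theorem hamming_embeds_dualSum :
    ∃ ρ ω : ℝ≥0 → ℝ≥0, Monotone ρ ∧ Monotone ω ∧ Tendsto ρ atTop atTop ∧
      ∀ k : ℕ, ∃ f : (Fin k ↪o ℕ) → ℕ+ → TsirelsonDual,
        (∀ m, MemDualSum (f m)) ∧
        ∀ m n : Fin k ↪o ℕ, MemDualSum (f m - f n) ∧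
          (ρ (hammingDist (m : Fin k → ℕ) n) : ℝ) ≤ dualSumNorm (f m - f n) ∧
          dualSumNorm (f m - f n) ≤ (ω (hammingDist (m : Fin k → ℕ) n) : ℝ) := by
  classical
  refine ⟨lowerFn (fun i : ℕ+ => (i : ℕ)), fun t => 12 * t, lowerFn_mono _ finite_lt_pnat,
    fun s t h => by dsimp only; gcongr,
    lowerFn_tendsto _ finite_lt_pnat (fun n => ⟨n.succPNat, Nat.le_succ n⟩), fun k => ?_⟩
  obtain ⟨g, hg0, hgU, hgL⟩ := exists_inner_maps (fun i => eStar i.succPNat)
    (fun i => evT i.succPNat) (fun i φ => abs_apply_coe_le φ (norm_single_le _))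
    (fun i => by
      change eStar _ _ = _
      rw [eStar_coe]
      exact Finsupp.single_eq_same)
    (fun i j hij => by
      change eStar _ _ = _
      rw [eStar_coe]
      exact Finsupp.single_eq_of_ne (fun h => hij (Nat.succPNat_injective h).symm))
    norm_sum_eStar_le k
  let S : Finset ℕ+ := (Finset.range k).image Nat.succPNat
  have hS : ∀ j : ℕ+, j ∉ S → k ≤ j.natPred := by
    intro j hj
    by_contra h
    exact hj (Finset.mem_image.2 ⟨j.natPred, Finset.mem_range.2 (not_le.1 h),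
      PNat.succPNat_natPred j⟩)
  refine ⟨fun m j => g j.natPred m, fun m => ?_, fun m n => ?_⟩
  · exact summable_of_ne_finset_zero (s := S) fun j hj => by simp [hg0 _ (hS j hj)]
  have hz : ∀ j ∉ S, ‖((fun j : ℕ+ => g j.natPred m) - fun j : ℕ+ => g j.natPred n) j‖ •
      eStar j = 0 := fun j hj => by simp [hg0 _ (hS j hj)]
  refine ⟨summable_of_ne_finset_zero hz, ?_, ?_⟩
  · unfold dualSumNorm
    rw [tsum_eq_sum hz, lowerFn_natCast]
    refine growth_le_norm S _ (fun i => norm_nonneg _) _ fun i hi => ?_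
    have h1 : i.natPred < Nat.log 2 (hammingDist (m : Fin k → ℕ) n) := by
      have := PNat.natPred_add_one i
      omega
    have h2 := hgL m n _ h1
    refine ⟨?_, h2⟩
    by_contra h
    rw [hg0 _ (hS i h), hg0 _ (hS i h)] at h2
    norm_num at h2
  · unfold dualSumNorm
    rw [tsum_eq_sum hz, Finset.sum_image (fun _ _ _ _ h => Nat.succPNat_injective h)]
    refine (norm_sum_le _ _).trans (le_trans ?_ ((hgU m n).trans (le_of_eq ?_)))
    · refine Finset.sum_le_sum fun j _ => ?_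
      rw [norm_smul, norm_norm]
      simpa using mul_le_of_le_one_right (norm_nonneg _) (norm_eStar_le _)
    · push_cast
      rfl

end Pool.Agent.MP_6dccca_an
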