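import Pool.Agent.MP_6dccca_an.TsDefs
import Pool.Agent.MP_6dccca_an.Dual

open scoped ENNReal
open Set Function

namespace Pool.Agent.MP_6dccca_an

lemma enorm_filter_apply (x : ℕ+ →₀ ℝ) (E : Finset ℕ+) (i : ℕ+) :
    ‖(x.filter (· ∈ E)) i‖ₑ = (E : Set ℕ+).indicator (fun j => ‖x j‖ₑ) i := by
  rw [Finsupp.filter_apply]
  by_cases hi : i ∈ E
  · simp [hi]
  · simp [hi]

lemma approx_le_comb (a b : ℝ≥0∞) (n : ℕ) {z x y : ℕ+ →₀ ℝ}
    (h : ∀ i, ‖z i‖ₑ ≤ a * ‖x i‖ₑ + b * ‖y i‖ₑ) :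
    tsirelsonApprox n z ≤ a * tsirelsonApprox n x + b * tsirelsonApprox n y := by
  induction n generalizing z x y with
  | zero =>
    refine iSup_le fun i => (h i).trans ?_
    gcongr
    · exact le_iSup (fun j => ‖x j‖ₑ) i
    · exact le_iSup (fun j => ‖y j‖ₑ) i
  | succ n ih =>
    simp only [tsirelsonApprox]
    refine max_le (iSup_le fun i => (h i).trans ?_) ?_
    · gcongr
      · exact le_max_of_le_left (le_iSup (fun j => ‖x j‖ₑ) i)
      · exact le_max_of_le_left (le_iSup (fun j => ‖y j‖ₑ) i)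
    · simp only [ENNReal.mul_iSup]
      refine iSup_le fun k => iSup_le fun E => iSup_le fun hE => ?_
      calc 2⁻¹ * ∑ i, tsirelsonApprox n (z.filter (· ∈ E i))
          ≤ 2⁻¹ * ∑ i, (a * tsirelsonApprox n (x.filter (· ∈ E i)) +
              b * tsirelsonApprox n (y.filter (· ∈ E i))) := by
            gcongr with l
            apply ih
            intro i
            simp only [enorm_filter_apply]
            by_cases hi : i ∈ E l
            · simpa [hi] using h i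
            · simp [hi]
        _ = a * (2⁻¹ * ∑ i, tsirelsonApprox n (x.filter (· ∈ E i))) +
              b * (2⁻¹ * ∑ i, tsirelsonApprox n (y.filter (· ∈ E i))) := by
            rw [Finset.sum_add_distrib, ← Finset.mul_sum, ← Finset.mul_sum]
            ring
        _ ≤ _ := by
            gcongr
            · exact le_max_of_le_right
                (le_iSup_of_le k (le_iSup_of_le E (le_iSup_of_le hE le_rfl)))
            · exact le_max_of_le_right
                (le_iSup_of_le k (le_iSup_of_le E (le_iSup_of_le hE le_rfl)))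

/-- The extended-valued Tsirelson norm. -/
noncomputable def tsE (x : ℕ+ →₀ ℝ) : ℝ≥0∞ := ⨆ n, tsirelsonApprox n x

lemma tsE_le_comb (a b : ℝ≥0∞) {z x y : ℕ+ →₀ ℝ}
    (h : ∀ i, ‖z i‖ₑ ≤ a * ‖x i‖ₑ + b * ‖y i‖ₑ) : tsE z ≤ a * tsE x + b * tsE y := by
  refine iSup_le fun n => (approx_le_comb a b n h).trans ?_
  gcongr
  · exact le_iSup (fun n => tsirelsonApprox n x) n
  · exact le_iSup (fun n => tsirelsonApprox n y) n

lemma Admissible.adm {k : ℕ} {E : Fin k → Finset ℕ+} (h : Admissible k E) :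
    Adm (fun i : ℕ+ => (i : ℕ)) k (fun l => (E l : Set ℕ+)) := by
  refine ⟨?_, fun l i hi => h.2.1 l i hi⟩
  intro l l' hll
  rw [Function.onFun, Set.disjoint_left]
  intro a ha ha'
  rcases lt_or_gt_of_ne hll with h1 | h1
  · exact lt_irrefl _ (h.2.2 _ _ h1 a ha a ha')
  · exact lt_irrefl _ (h.2.2 _ _ h1 a ha' a ha)

lemma approx_le_mN (n : ℕ) (x : ℕ+ →₀ ℝ) :
    tsirelsonApprox n x ≤ mN (fun i : ℕ+ => (i : ℕ)) (fun i => ‖x i‖ₑ) := by
  induction n generalizing x with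
  | zero => exact iSup_le fun i => le_mN _ (fun i => ‖x i‖ₑ) i
  | succ n ih =>
    simp only [tsirelsonApprox]
    refine max_le (iSup_le fun i => le_mN _ (fun i => ‖x i‖ₑ) i) ?_
    simp only [ENNReal.mul_iSup]
    refine iSup_le fun k => iSup_le fun E => iSup_le fun hE => ?_
    refine le_trans ?_ (half_sum_le_mN _ hE.adm _)
    gcongr with l
    refine (ih _).trans (le_of_eq ?_)
    congr 1
    ext i
    exact enorm_filter_apply x _ i

lemma tsE_le_mN (x : ℕ+ →₀ ℝ) : tsE x ≤ mN (fun i : ℕ+ => (i : ℕ)) (fun i => ‖x i‖ₑ) :=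
  iSup_le fun n => approx_le_mN n x

lemma tsE_ne_top (x : ℕ+ →₀ ℝ) : tsE x ≠ ∞ := by
  refine ne_top_of_le_ne_top ?_ ((tsE_le_mN x).trans (mN_le_tsum _ _))
  rw [tsum_eq_sum (s := x.support) (fun i hi => by simpa using hi)]
  exact ENNReal.sum_ne_top.2 fun i _ => enorm_ne_top

lemma enorm_le_tsE (x : ℕ+ →₀ ℝ) (i : ℕ+) : ‖x i‖ₑ ≤ tsE x :=
  le_iSup_of_le 0 (le_iSup (fun j => ‖x j‖ₑ) i)

lemma sum_le_two_tsE (x : ℕ+ →₀ ℝ) (S : Finset ℕ+) (hS : ∀ i ∈ S, S.card ≤ (i : ℕ)) :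
    ∑ i ∈ S, ‖x i‖ₑ ≤ 2 * tsE x := by
  let E : Fin S.card → Finset ℕ+ := fun l => {S.orderEmbOfFin rfl l}
  have hE : Admissible _ E := by
    refine ⟨fun l => Finset.singleton_nonempty _, ?_, ?_⟩
    · intro l a ha
      rw [Finset.mem_singleton.1 ha]
      exact hS _ (S.orderEmbOfFin_mem rfl l)
    · intro l l' hll a ha b hb
      rw [Finset.mem_singleton.1 ha, Finset.mem_singleton.1 hb]
      exact (S.orderEmbOfFin rfl).strictMono hll
  have h1 : 2⁻¹ * ∑ l, tsirelsonApprox 0 (x.filter (· ∈ E l)) ≤ tsE x := by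
    refine le_iSup_of_le 1 ?_
    simp only [tsirelsonApprox]
    refine le_max_of_le_right ?_
    gcongr
    exact le_iSup_of_le _ (le_iSup_of_le E (le_iSup_of_le hE le_rfl))
  have h2 : ∑ i ∈ S, ‖x i‖ₑ ≤ ∑ l, tsirelsonApprox 0 (x.filter (· ∈ E l)) := by
    rw [← Finset.sum_coe_sort S, ← (S.orderIsoOfFin rfl).toEquiv.sum_comp]
    refine Finset.sum_le_sum fun l _ => ?_
    refine le_iSup_of_le (S.orderEmbOfFin rfl l) ?_
    rw [enorm_filter_apply, indicator_of_mem (by simp [E])]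
    simp
  calc ∑ i ∈ S, ‖x i‖ₑ ≤ 2 * (2⁻¹ * ∑ l, tsirelsonApprox 0 (x.filter (· ∈ E l))) := by
        rw [← mul_assoc, ENNReal.mul_inv_cancel (by norm_num) (by norm_num), one_mul]
        exact h2
    _ ≤ 2 * tsE x := by gcongr

/-- View an element of `C00` as a finitely supported function. -/
def C00.toF (x : C00) : ℕ+ →₀ ℝ := x

lemma C00.norm_def (x : C00) : ‖x‖ = (tsE x.toF).toReal := rfl

lemma tsE_smul (c : ℝ) (x : ℕ+ →₀ ℝ) : tsE (c • x) = ‖c‖ₑ * tsE x := by
  have key : ∀ (c : ℝ) (x : ℕ+ →₀ ℝ), tsE (c • x) ≤ ‖c‖ₑ * tsE x := by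
    intro c x
    simpa using tsE_le_comb ‖c‖ₑ 0 (z := c • x) (x := x) (y := x) (by simp [enorm_mul])
  refine le_antisymm (key c x) ?_
  by_cases hc : c = 0
  · simp [hc]
  have := key c⁻¹ (c • x)
  rw [smul_smul, inv_mul_cancel₀ hc, one_smul] at this
  calc ‖c‖ₑ * tsE x ≤ ‖c‖ₑ * (‖c⁻¹‖ₑ * tsE (c • x)) := by gcongr
    _ = tsE (c • x) := by rw [← mul_assoc, ← enorm_mul, mul_inv_cancel₀ hc]; simp

theorem tsirelsonCore_aux : NormedSpace.Core ℝ C00 where
  norm_nonneg x := ENNReal.toReal_nonneg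
  norm_smul c x := by
    rw [C00.norm_def, C00.norm_def]
    change (tsE (c • x.toF)).toReal = _
    rw [tsE_smul, ENNReal.toReal_mul]
    simp
  norm_triangle x y := by
    rw [C00.norm_def, C00.norm_def, C00.norm_def,
      ← ENNReal.toReal_add (tsE_ne_top _) (tsE_ne_top _)]
    refine ENNReal.toReal_mono (ENNReal.add_ne_top.2 ⟨tsE_ne_top _, tsE_ne_top _⟩) ?_
    change tsE (x.toF + y.toF) ≤ _
    simpa using tsE_le_comb 1 1 (z := x.toF + y.toF) (x := x.toF) (y := y.toF)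
      (fun i => by simpa using enorm_add_le _ _)
  norm_eq_zero_iff x := by
    rw [C00.norm_def]
    constructor
    · intro h
      rw [ENNReal.toReal_eq_zero_iff] at h
      have h0 := h.resolve_right (tsE_ne_top _)
      change x.toF = 0
      ext i
      have := enorm_le_tsE x.toF i
      rw [h0] at this
      simpa using this
    · rintro rfl
      have := tsE_smul 0 (0 : ℕ+ →₀ ℝ)
      change (tsE 0).toReal = 0
      simp only [zero_smul, enorm_zero, zero_mul] at this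
      simp [this]

theorem norm_lapply_le_aux (j : ℕ+) (x : C00) :
    ‖(Finsupp.lapply j : (ℕ+ →₀ ℝ) →ₗ[ℝ] ℝ) x‖ ≤ 1 * ‖x‖ := by
  rw [one_mul, C00.norm_def]
  have := ENNReal.toReal_mono (tsE_ne_top _) (enorm_le_tsE x.toF j)
  rw [toReal_enorm] at this
  exact this

end Pool.Agent.MP_6dccca_an
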