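import Mathlib

open scoped ENNReal

namespace Pool.Agent.MP_6dccca_an

/-- `k ≤ E₁ < ⋯ < E_k` for nonempty finite sets of positive integers. -/
def Admissible (k : ℕ) (E : Fin k → Finset ℕ+) : Prop :=
  (∀ i, (E i).Nonempty) ∧ (∀ i, ∀ a ∈ E i, k ≤ (a : ℕ)) ∧
    ∀ i j, i < j → ∀ a ∈ E i, ∀ b ∈ E j, a < b

/-- The Figiel-Johnson approximations `‖x‖ₙ` of the Tsirelson norm on `c₀₀`. -/
noncomputable def tsirelsonApprox : ℕ → (ℕ+ →₀ ℝ) → ℝ≥0∞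
  | 0, x => ⨆ j, ‖x j‖ₑ
  | n + 1, x => max (⨆ j, ‖x j‖ₑ)
      (2⁻¹ * ⨆ (k : ℕ) (E : Fin k → Finset ℕ+) (_ : Admissible k E),
        ∑ i, tsirelsonApprox n (x.filter (· ∈ E i)))

/-- The space `c₀₀`, to be normed by the Tsirelson norm. -/
def C00 : Type := ℕ+ →₀ ℝ

noncomputable instance : AddCommGroup C00 := (Finsupp.instAddCommGroup : AddCommGroup (ℕ+ →₀ ℝ))

noncomputable instance : Module ℝ C00 := (Finsupp.module ℕ+ ℝ : Module ℝ (ℕ+ →₀ ℝ))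

/-- The Tsirelson norm `‖x‖ = supₙ ‖x‖ₙ`. -/
noncomputable instance : Norm C00 := ⟨fun x => (⨆ n, tsirelsonApprox n x).toReal⟩

end Pool.Agent.MP_6dccca_an
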