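import Pool.Agent.MP_6dccca_an.TsBasic

namespace Pool.Agent.MP_6dccca_an

theorem tsirelsonCore : NormedSpace.Core ℝ C00 := tsirelsonCore_aux

theorem norm_lapply_le (j : ℕ+) (x : C00) :
    ‖(Finsupp.lapply j : (ℕ+ →₀ ℝ) →ₗ[ℝ] ℝ) x‖ ≤ 1 * ‖x‖ := norm_lapply_le_aux j x

noncomputable instance : NormedAddCommGroup C00 := NormedAddCommGroup.ofCore tsirelsonCore

noncomputable instance : NormedSpace ℝ C00 := NormedSpace.ofCore tsirelsonCore

/-- The space `T`: the completion of `c₀₀` under the Tsirelson norm. -/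
abbrev Tsirelson : Type := UniformSpace.Completion C00

/-- The dual space `T*`. -/
abbrev TsirelsonDual : Type := StrongDual ℝ Tsirelson

/-- The `j`-th coordinate functional on `c₀₀`. -/
noncomputable def coord (j : ℕ+) : C00 →L[ℝ] ℝ :=
  LinearMap.mkContinuous (Finsupp.lapply j) 1 (norm_lapply_le j)

/-- The coordinate functional `e_j*` in `T*`. -/
noncomputable def eStar (j : ℕ+) : TsirelsonDual := (coord j).fromCompletion

/-- Membership in `T*(T*)`: the series `∑ ‖x_j‖ e_j*` converges in `T*`. -/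
def MemDualSum (x : ℕ+ → TsirelsonDual) : Prop := Summable fun j => ‖x j‖ • eStar j

/-- The norm of `T*(T*)`. -/
noncomputable def dualSumNorm (x : ℕ+ → TsirelsonDual) : ℝ := ‖∑' j, ‖x j‖ • eStar j‖

end Pool.Agent.MP_6dccca_an
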